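import Pool.Agent.StarkSh.Stmts

/-!
# Characters induced from subgroups of index divisible by `p` are killed
-/

open scoped Classical
open StarkSharp

namespace StarkSh

namespace CLAx

variable {G : Type} [Group G] [Fintype G]

/-- a Sylow subgroup fixes no point of `G ⧸ H` if `p` divides the index of `H` -/
theorem stab_ne_top {p : ℕ} (hp : p.Prime) (P : Sylow p G) (H : Subgroup G) (hH : p ∣ H.index)
    (y : G ⧸ H) : MulAction.stabilizer (P : Subgroup G) y ≠ ⊤ := by
  have hfact : Fact p.Prime := ⟨hp⟩
  rw [Ne, stab_eq_top_iff]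
  intro h
  set a := y.out with ha
  have hle : (P : Subgroup G) ≤ H.map (MulAut.conj a).toMonoidHom := by
    intro s hs
    rw [Subgroup.mem_map]
    exact ⟨a⁻¹ * s * a, h s hs, by simp [mul_assoc]⟩
  have h1 : (H.map (MulAut.conj a).toMonoidHom).index ∣ (P : Subgroup G).index :=
    Subgroup.index_dvd_of_le hle
  have h2 : (H.map (MulAut.conj a).toMonoidHom).index = H.index :=
    Subgroup.index_map_equiv H (MulAut.conj a)
  rw [h2] at h1
  have h3 : ¬ p ∣ (P : Subgroup G).index := P.not_dvd_index
  exact h3 (hH.trans h1)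

end CLAx

theorem CLA_thm : Stmt_CLA := by
  intro hIND hNF hCOS hORDP p hp G _ _ P F t s s' hgood f hf
  unfold IndP at hf
  induction hf using AddSubgroup.closure_induction with
  | mem f hf =>
    obtain ⟨H, V, iV, iM, iF, ρ, hidx, rfl⟩ := hf
    refine hIND p G (P : Subgroup G) H F V ρ ?_
    intro y n hn
    exact hNF hCOS hORDP p hp G (P : Subgroup G) H P.isPGroup' F hgood.cos V ρ y
      (CLAx.stab_ne_top hp P H hidx y) n hn
  | zero => exact Killed.zero p _ F
  | add x y _ _ hx hy => exact hx.add hy
  | neg x _ hx => exact hx.neg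

end StarkSh
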