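import Pool.Agent.StarkSh.Stmts

/-!
# CLB: characters induced from linear characters of subgroups which contain `D`
-/

open scoped Classical
open StarkSharp NumberField

namespace StarkSh

namespace CLBx

theorem conj_eq {G : Type} [Group G] [Fintype G] (S H D : Subgroup G) [hDn : D.Normal]
    (hDH : D ≤ H) (ψ : H →* ℂˣ) (y : G ⧸ H) (h : ∀ s ∈ S, y.out⁻¹ * s * y.out ∈ H)
    (s s' v : S) (d : G) (hd : d ∈ D) (hs' : (s' : G) = (v * d) * s * (v * d)⁻¹) :
    conjChar S H ψ y h s' = conjChar S H ψ y h s := by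
  have hdH : y.out⁻¹ * d * y.out ∈ H := by
    apply hDH
    have := hDn.conj_mem d hd y.out⁻¹
    simpa using this
  set a : H := ⟨y.out⁻¹ * (v : G) * y.out, h v v.2⟩ with ha
  set b : H := ⟨y.out⁻¹ * d * y.out, hdH⟩ with hb
  set x : H := ⟨y.out⁻¹ * (s : G) * y.out, h s s.2⟩ with hx
  have h1 : conjChar S H ψ y h s = ψ x := rfl
  have h2 : conjChar S H ψ y h s' = ψ ⟨y.out⁻¹ * (s' : G) * y.out, h s' s'.2⟩ := rfl
  have h3 : (⟨y.out⁻¹ * (s' : G) * y.out, h s' s'.2⟩ : H) = (a * b) * x * (a * b)⁻¹ := by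
    apply Subtype.ext
    rw [ha, hb, hx]
    simp only [Subgroup.coe_mul, Subgroup.coe_inv, hs']
    group
  rw [h1, h2, h3, map_mul, map_mul, map_inv, mul_comm (ψ (a * b)) (ψ x), mul_assoc,
    mul_inv_cancel, mul_one]

end CLBx

theorem CLB_thm : Stmt_CLB := by
  intro hIND hNFULL hCOS hORDP p hp G _ _ S D hD hS F t s s' v d hd hs' hgood f hf
  unfold IndD at hf
  induction hf using AddSubgroup.closure_induction with
  | mem f hf =>
    obtain ⟨H, ψ, hDH, rfl⟩ := hf
    have hchar : (fun h : H => (ψ h : ℂ)) = (linRep ψ).character := by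
      funext h
      rw [linRep_character]
    rw [hchar]
    refine hIND p G S H F ℂ (linRep ψ) ?_
    intro y n hn
    by_cases hy : MulAction.stabilizer S y = ⊤
    · have h := (stab_eq_top_iff S H y).mp hy
      have hn' : ∀ ζ, n ζ = if conjChar S H ψ y h = ζ then 1 else 0 := by
        intro ζ
        have h1 := hn ζ
        rw [Iw_full S H ψ y h ζ] at h1
        have h2 : ((if conjChar S H ψ y h = ζ then (1 : ℤ) else 0 : ℤ) : ℂ) = (n ζ : ℂ) := by
          rw [← h1]
          split_ifs <;> simp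
        exact_mod_cast h2.symm
      have h3 : F (conjChar S H ψ y h) = 0 :=
        hgood.real _ (CLBx.conj_eq S H D hDH ψ y h s s' v d hd hs')
      rw [Finset.sum_eq_single (conjChar S H ψ y h)]
      · rw [h3, zero_mul]
      · intro ζ _ hζ
        rw [hn', if_neg (Ne.symm hζ)]
        simp
      · intro h4
        exact absurd (Finset.mem_univ _) h4
    · exact hNFULL hCOS hORDP p hp G S H hS F hgood.cos ℂ (linRep ψ) y hy n hn
  | zero => exact Killed.zero p S F
  | add f g _ _ ihf ihg => exact ihf.add ihg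
  | neg f _ ihf => exact ihf.neg

end StarkSh
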