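import Pool.Agent.Lib_helper3.SH.Field

/-!
# Sharpness: the classes of characters in the statement
-/

open scoped Classical
open StarkSharp NumberField

namespace StarkSh

/-- `g` lies in the inertia group of a prime of `M` above the prime number `ℓ`. -/
def InertiaAbove (ℓ : ℕ) {M : Type} [Field M] [NumberField M] (g : M ≃ₐ[ℚ] M) : Prop :=
  ∃ P : Ideal (𝓞 M), P.IsPrime ∧ (ℓ : 𝓞 M) ∈ P ∧
    ∀ x y : 𝓞 M, (y : M) = g (x : M) → y - x ∈ P

/-- The group generated by all characters of `Gal(M/ℚ)` which are induced from characters of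
`Gal(M/K)`, `K` a subfield of `M` with `[K : ℚ]` divisible by `p`. -/
noncomputable def inducedDegDiv (p : ℕ) (M : Type) [Field M] [NumberField M] :
    AddSubgroup ((M ≃ₐ[ℚ] M) → ℂ) :=
  AddSubgroup.closure {f | ∃ (K : IntermediateField ℚ M) (V : Type) (_ : AddCommGroup V)
    (_ : Module ℂ V) (_ : Module.Finite ℂ V) (ρ : Representation ℂ K.fixingSubgroup V),
      p ∣ Module.finrank ℚ K ∧ f = indFun K.fixingSubgroup (extF K.fixingSubgroup ρ.character)}

/-- The group generated by all characters of `Gal(M/ℚ)` which are induced from linear characters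
of `Gal(M/K)`, `K` a subfield of the compositum `E L` of `E` with a totally real or CM subfield
`L` of `M`. -/
noncomputable def inducedRealCM {M : Type} [Field M] [NumberField M]
    (E : IntermediateField ℚ M) : AddSubgroup ((M ≃ₐ[ℚ] M) → ℂ) :=
  AddSubgroup.closure {f | ∃ (K L : IntermediateField ℚ M) (ψ : K.fixingSubgroup →* ℂˣ),
    (IsTotallyReal L ∨ IsCMField L) ∧ K ≤ E ⊔ L ∧
      f = indFun K.fixingSubgroup (extF K.fixingSubgroup (fun h => (ψ h : ℂ)))}

/-- The group generated by all characters of `Gal(M/ℚ)` which are induced from characters of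
`Gal(M/K)`, `K` any subfield of `M`, whose ramification above `ℓ` is prime to `p`: they are
trivial on the elements of `p`-power order of the inertia groups of the primes above `ℓ`. -/
noncomputable def inducedPrimeRam (p ℓ : ℕ) (M : Type) [Field M] [NumberField M] :
    AddSubgroup ((M ≃ₐ[ℚ] M) → ℂ) :=
  AddSubgroup.closure {f | ∃ (K : IntermediateField ℚ M) (V : Type) (_ : AddCommGroup V)
    (_ : Module ℂ V) (_ : Module.Finite ℂ V) (ρ : Representation ℂ K.fixingSubgroup V),
      (∀ h : K.fixingSubgroup, InertiaAbove ℓ (h : M ≃ₐ[ℚ] M) → (∃ n : ℕ, h ^ (p ^ n) = 1) →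
        ρ h = 1) ∧ f = indFun K.fixingSubgroup (extF K.fixingSubgroup ρ.character)}

end StarkSh
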