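import Pool.Agent.StarkSh.Defs
import Pool.Agent.StarkSh.PDefs

/-!
# Sharpness: statements of the modules
-/

open scoped Classical
open StarkSharp NumberField

namespace StarkSh

/-! ## general facts -/

/-- COS: a sum over cosets.  Partition `X` into the cosets `x⟨δ⟩` (each has `p` elements `x δ^j`,
`j < p`); `n` is constant on each of them and the sum of `F` over each of them is zero. -/
def Stmt_COS : Prop :=
  ∀ (p : ℕ), p.Prime → ∀ (X : Type) [CommGroup X] [Fintype X] (F n : X → ZMod p) (δ : X),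
    δ ^ p = 1 → δ ≠ 1 → (∀ x, n (x * δ) = n x) →
    (∀ x, ∑ j ∈ Finset.range p, F (x * δ ^ j) = 0) → ∑ x, F x * n x = 0

/-- ORDP (generalises `StarkSharp.exists_quad`): a proper subgroup of a finite `p`-group is killed
by a linear character of order `p` (a maximal subgroup `V ⊇ U` is normal of index `p`). -/
def Stmt_ORDP : Prop :=
  ∀ (p : ℕ), p.Prime → ∀ (S : Type) [Group S] [Finite S], IsPGroup p S →
    ∀ U : Subgroup S, U ≠ ⊤ → ∃ δ : S →* ℂˣ, δ ≠ 1 ∧ δ ^ p = 1 ∧ ∀ u ∈ U, δ u = 1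

/-- CNT (generalises `StarkSharp.fullPts_card_odd` and the first lines of `exists_odd`): the number
of points of `G ⧸ H` fixed by the Sylow subgroup `P` is prime to `p`, so some fibre of `κ` has a
cardinality prime to `p`. -/
def Stmt_CNT : Prop :=
  ∀ (p : ℕ), p.Prime → ∀ (G : Type) [Group G] [Fintype G] (P : Sylow p G) (H : Subgroup G),
    ¬ p ∣ H.index → ∀ (X : Type) (κ : MulAction.orbitRel.Quotient P (G ⧸ H) → X),
      ∃ w₀ ∈ fullPts (P : Subgroup G) H,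
        ¬ p ∣ ((fullPts (P : Subgroup G) H).filter (fun w => κ w = κ w₀)).card

/-! ## group theory: elements of the Sylow subgroup -/

/-- TAU: `a⁻¹ P a ≤ H` is a Sylow subgroup of `H`.  If `ψ(t)^q ≠ 1` (`q = 1` or `q = p`) then some
power `t^j` has `p`-power order and `ψ(t^j)^q ≠ 1`, and `ψ(t^j)^p = 1` if `q = 1`; it is conjugate
in `H` to an element of `a⁻¹ P a`.  (Compare `StarkSharp.exists_conj_elt`.) -/
def Stmt_TAU : Prop :=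
  ∀ (p : ℕ), p.Prime → ∀ (G : Type) [Group G] [Fintype G] (P : Sylow p G) (H : Subgroup G)
    (a : G), (∀ x ∈ (P : Subgroup G), a⁻¹ * x * a ∈ H) →
    ∀ (ψ : H →* ℂˣ) (k : ℕ), ψ ^ (p ^ k) = 1 → ∀ (t : H) (q : ℕ), q = p ∨ q = 1 → (ψ t) ^ q ≠ 1 →
      ∃ (j : ℕ) (v : H) (τ : P), (τ : G) = a * ((v * t ^ j * v⁻¹ : H) : G) * a⁻¹ ∧
        (ψ (t ^ j)) ^ q ≠ 1 ∧ (q = 1 → (ψ (t ^ j)) ^ p = 1)

/-- SG: the same for a pair `s, s' = c s c⁻¹` of elements of `H` with `c ∈ D`, `D` normal in `G`: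
one gets `s₁ ∈ P`, `s₁' = (v d) s₁ (v d)⁻¹ ∈ P` with `v ∈ P`, `d ∈ D`, and
`ψ(a⁻¹ s₁ a) = ψ(s^j)`, `ψ(a⁻¹ s₁' a) = ψ(s'^j)`.
Proof: take `j` so that `s^j` has `p`-power order, `(ψ(s'^j)/ψ(s^j))^q ≠ 1`, and
`(ψ(s'^j)/ψ(s^j))^p = 1` if `q = 1`.  Replace `s, s'` by `s^j, s'^j`.  Put `S = a⁻¹ P a ≤ H`, a
Sylow subgroup of `H`; choose `u ∈ H` with `x := u s u⁻¹ ∈ S`.  `c₁ := u c u⁻¹ ∈ D`,
`c₁ x c₁⁻¹ = u s' u⁻¹ ∈ H ∩ S D` (`S D` is a subgroup, `S` is a Sylow subgroup of `H ∩ S D`), so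
there is `y ∈ H ∩ S D` with `y c₁ x c₁⁻¹ y⁻¹ ∈ S`.  `y c₁ ∈ S D`.  Conjugate back with `a`. -/
def Stmt_SG : Prop :=
  ∀ (p : ℕ), p.Prime → ∀ (G : Type) [Group G] [Fintype G] (P : Sylow p G) (H D : Subgroup G)
    [D.Normal] (a : G) (h : ∀ x ∈ (P : Subgroup G), a⁻¹ * x * a ∈ H)
    (ψ : H →* ℂˣ) (k : ℕ), ψ ^ (p ^ k) = 1 → ∀ (s s' : H) (c : G), c ∈ D →
      (s' : G) = c * s * c⁻¹ → ∀ q : ℕ, q = p ∨ q = 1 → (ψ s') ^ q ≠ (ψ s) ^ q →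
      ∃ (s₁ s₁' v : P) (d : G), d ∈ D ∧ (s₁' : G) = (v * d) * s₁ * (v * d)⁻¹ ∧
        (ψ ⟨a⁻¹ * s₁' * a, h s₁' s₁'.2⟩) ^ q ≠ (ψ ⟨a⁻¹ * s₁ * a, h s₁ s₁.2⟩) ^ q ∧
        (q = 1 → (ψ ⟨a⁻¹ * s₁' * a, h s₁' s₁'.2⟩) ^ p = (ψ ⟨a⁻¹ * s₁ * a, h s₁ s₁.2⟩) ^ p)

/-! ## the weights -/

/-- FA: the weight `F(ζ) = 1` if `ζ^p = ξ^p`, `0` otherwise.
`cos`: `F(ζ δ^j) = F(ζ)`, the sum is `p F(ζ) = 0`.  `real`, `unr`: clear.
`rat` (compare `StarkSharp.even_q_rat`): `ξ` has order `p^(e+1)`, `e ≥ 1`, as `ξ^p ≠ 1`;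
`δ = ξ^(p^e)`; for `ζ^p = ξ^p` one has `ζ δ = ζ^(1+p^e)`, and `F(ζ δ) = F(ζ)`; so
`N(ζ) = F(ζ) n(ζ)` satisfies `N(ζ δ) = N(ζ)`: use COS with the weight `1` and `N`. -/
def Stmt_FA : Prop :=
  Stmt_COS → ∀ (p : ℕ), p.Prime → ∀ (G : Type) [Group G] [Fintype G] (S : Subgroup G),
    IsPGroup p S → ∀ (ξ : S →* ℂˣ) (t s s' : S), (ξ t) ^ p ≠ 1 → (ξ s') ^ p ≠ (ξ s) ^ p →
      Good p S (fun ζ => if ζ ^ p = ξ ^ p then 1 else 0) t s s'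

/-- FB: `p ≥ 5`.  Put `e₁(ζ) = ζ(s')/ζ(s)`, `e₂(ζ) = ζ(t)`; `e₁(ξ)`, `e₂(ξ)` are primitive `p`-th
roots of unity.  Weight: `F(ζ) = j₁ j₂` if `e₁(ζ) = e₁(ξ)^j₁`, `e₂(ζ) = e₂(ξ)^j₂` with
`j₁, j₂ ∈ ℤ/p`, and `0` otherwise; `F(ξ) = 1`.
`cos`: `e_i(δ)^p = 1`, `F(ζ δ^j) = (j₁ + j α)(j₂ + j β)` or always `0`, and
`∑ 1 = ∑ j = ∑ j² = 0` in `ℤ/p` over `j < p`, as `p ≥ 5`.  `real`, `unr`: `j₁ = 0`, `j₂ = 0`.
`rat`: `F(ζ²) = 4 F(ζ)`, `n(ζ²) = n(ζ)` and `ζ ↦ ζ²` is a bijection, so `Σ = 4 Σ`, `3 Σ = 0`. -/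
def Stmt_FB : Prop :=
  ∀ (p : ℕ), p.Prime → 5 ≤ p → ∀ (G : Type) [Group G] [Fintype G] (S : Subgroup G),
    IsPGroup p S → ∀ (ξ : S →* ℂˣ) (t s s' : S), (ξ t) ^ p = 1 → ξ t ≠ 1 →
      (ξ s') ^ p = (ξ s) ^ p → ξ s' ≠ ξ s → ∃ F : (S →* ℂˣ) → ZMod p, Good p S F t s s' ∧ F ξ ≠ 0

/-! ## the classes which are killed -/

/-- IND: `mlt_ind` writes the multiplicities of an induced character as sums of the integers
`Iw` (`int_Iw`) over the orbits `w`. -/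
def Stmt_IND : Prop :=
  ∀ (p : ℕ) (G : Type) [Group G] [Fintype G] (S H : Subgroup G)
    (F : (S →* ℂˣ) → ZMod p) (V : Type) [AddCommGroup V] [Module ℂ V] [Module.Finite ℂ V]
    (ρ : Representation ℂ H V),
    (∀ (y : G ⧸ H) (n : (S →* ℂˣ) → ℤ), (∀ ζ, Iw S H ρ.character ζ y = n ζ) →
      ∑ ζ : S →* ℂˣ, F ζ * (n ζ : ZMod p) = 0) → Killed p S F (indFun H (extF H ρ.character))

/-- NFULL (generalises `StarkSharp.even_Iw`): the contribution of a point `y` which is not fixed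
by the `p`-group `S` is zero: ORDP for the stabiliser, `Iw_congr`, COS. -/
def Stmt_NFULL : Prop :=
  Stmt_COS → Stmt_ORDP → ∀ (p : ℕ), p.Prime → ∀ (G : Type) [Group G] [Fintype G]
    (S H : Subgroup G), IsPGroup p S → ∀ (F : (S →* ℂˣ) → ZMod p),
    (∀ ζ δ : S →* ℂˣ, δ ^ p = 1 → δ ≠ 1 → ∑ j ∈ Finset.range p, F (ζ * δ ^ j) = 0) →
    ∀ (V : Type) [AddCommGroup V] [Module ℂ V] [Module.Finite ℂ V] (ρ : Representation ℂ H V)
      (y : G ⧸ H), MulAction.stabilizer S y ≠ ⊤ → ∀ (n : (S →* ℂˣ) → ℤ),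
      (∀ ζ, Iw S H ρ.character ζ y = n ζ) → ∑ ζ : S →* ℂˣ, F ζ * (n ζ : ZMod p) = 0

/-- CLA (generalises `StarkSharp.even_q_ind`, `even_q_evenInduced`): characters induced from
subgroups of index divisible by `p`: no point is fixed. -/
def Stmt_CLA : Prop :=
  Stmt_IND → Stmt_NFULL → Stmt_COS → Stmt_ORDP → ∀ (p : ℕ), p.Prime → ∀ (G : Type) [Group G]
    [Fintype G] (P : Sylow p G) (F : ((P : Subgroup G) →* ℂˣ) → ZMod p) (t s s' : P),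
    Good p (P : Subgroup G) F t s s' → ∀ f ∈ IndP p G, Killed p (P : Subgroup G) F f

/-- CLB: characters induced from linear characters `ψ` of subgroups `H ≥ D`.  At a fixed point
`y = a H` the multiplicities are `1` for `λ = conjChar` and `0` otherwise (`Iw_full`), and
`λ(s') = ψ(a⁻¹ (v d) s (v d)⁻¹ a) = ψ(a⁻¹ s a) = λ(s)` because `a⁻¹ v a ∈ H`,
`a⁻¹ d a ∈ D ≤ H`; use `Good.real`. -/
def Stmt_CLB : Prop :=
  Stmt_IND → Stmt_NFULL → Stmt_COS → Stmt_ORDP → ∀ (p : ℕ), p.Prime → ∀ (G : Type) [Group G]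
    [Fintype G] (S D : Subgroup G) [D.Normal], IsPGroup p S → ∀ (F : (S →* ℂˣ) → ZMod p)
    (t s s' v : S) (d : G), d ∈ D → (s' : G) = (v * d) * s * (v * d)⁻¹ →
    Good p S F t s s' → ∀ f ∈ IndD D, Killed p S F f

/-- CLU: characters induced from representations `ρ` of `H` which are trivial on `H ∩ I`, where
`t ∈ I`.  At a fixed point `y = a H`: `ρ(a⁻¹ t a) = 1`, so the multiplicity of `ζ` is `0` unless
`ζ(t) = 1`; use `Good.unr`. -/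
def Stmt_CLU : Prop :=
  Stmt_IND → Stmt_NFULL → Stmt_COS → Stmt_ORDP → ∀ (p : ℕ), p.Prime → ∀ (G : Type) [Group G]
    [Fintype G] (I : Set G), (∀ g ∈ I, ∀ x : G, x * g * x⁻¹ ∈ I) →
    ∀ (S : Subgroup G), IsPGroup p S → ∀ (F : (S →* ℂˣ) → ZMod p)
    (t s s' : S), (t : G) ∈ I → Good p S F t s s' → ∀ f ∈ IndU I, Killed p S F f

/-- CLR: rational valued virtual characters (`int_mlt_virtual`, `mlt_galois`, `Good.rat`). -/
def Stmt_CLR : Prop :=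
  ∀ (p : ℕ) (G : Type) [Group G] [Fintype G] (S : Subgroup G)
    (F : (S →* ℂˣ) → ZMod p) (t s s' : S), Good p S F t s s' →
    ∀ f ∈ virtualChars G, (∀ g, ∃ r : ℚ, f g = r) → Killed p S F f

/-! ## the value at an induced linear character -/

/-- EVAL: the value of the functional at the character induced from `ψ` is the sum of `F(cw)` over
the fixed points (`mlt_ind`, `Iw_full`, NFULL). -/
def Stmt_EVAL : Prop :=
  Stmt_NFULL → Stmt_COS → Stmt_ORDP → ∀ (p : ℕ), p.Prime → ∀ (G : Type) [Group G]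
    [Fintype G] (S H : Subgroup G), IsPGroup p S → ∀ (F : (S →* ℂˣ) → ZMod p),
    (∀ ζ δ : S →* ℂˣ, δ ^ p = 1 → δ ≠ 1 → ∑ j ∈ Finset.range p, F (ζ * δ ^ j) = 0) →
    ∀ (ψ : H →* ℂˣ), ∃ n : (S →* ℂˣ) → ℤ,
      (∀ ζ, mlt S (indFun H (extF H (fun h => (ψ h : ℂ)))) ζ = n ζ) ∧
      ∑ ζ : S →* ℂˣ, F ζ * (n ζ : ZMod p) = ∑ w ∈ fullPts S H, F (cw S H ψ w)

/-- all module statements about groups which the two obstructions use -/
def Stmt_BASE : Prop :=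
  Stmt_COS ∧ Stmt_ORDP ∧ Stmt_CNT ∧ Stmt_TAU ∧ Stmt_SG ∧ Stmt_FA ∧ Stmt_FB ∧ Stmt_IND ∧
    Stmt_NFULL ∧ Stmt_CLA ∧ Stmt_CLB ∧ Stmt_CLU ∧ Stmt_CLR ∧ Stmt_EVAL

/-- The hypotheses and the conclusion of the group theoretic theorem for the exponent `q`. -/
def Obstruction (q p : ℕ) : Prop :=
  ∀ (G : Type) [Group G] [Fintype G] (D : Subgroup G) [D.Normal] (I : Set G),
    (∀ g ∈ I, ∀ x : G, x * g * x⁻¹ ∈ I) → (∀ g ∈ I, ∀ n : ℕ, g ^ n ∈ I) →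
    ∀ (H : Subgroup G), ¬ p ∣ H.index → ∀ (ψ : H →* ℂˣ) (k : ℕ), ψ ^ (p ^ k) = 1 →
    ∀ (t s s' : H) (c : G), (t : G) ∈ I → c ∈ D → (s' : G) = c * s * c⁻¹ →
    (q = p ∨ (q = 1 ∧ 5 ≤ p ∧
      ∀ x : G, x ∉ H → ∃ y : H, (y : G) = x⁻¹ * t * x ∧ ψ y = 1)) →
    (ψ t) ^ q ≠ 1 → (ψ s') ^ q ≠ (ψ s) ^ q →
    ∀ (m : ℤ), ¬ (p : ℤ) ∣ m → ∀ (a b u r : G → ℂ), a ∈ IndP p G → b ∈ IndD D → u ∈ IndU I →
    r ∈ virtualChars G → (∀ g, ∃ z : ℚ, r g = z) →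
    (fun g => (m : ℂ) * indFun H (extF H (fun h => (ψ h : ℂ))) g) ≠ a + b + u + r

/-- GRPA: `q = p`.  `P` a Sylow subgroup, `w₀` from CNT with `κ w = (cw w)^p`, `ξ = cw w₀`,
`a = w₀.out.out`; `τ ∈ P ∩ I` from TAU, `s₁, s₁'` from SG; the weight FA.  The four summands are
killed; the value at the left side is `m` times the number of the fixed points `w` with
`(cw w)^p = ξ^p`, which is prime to `p`. -/
def Stmt_GRPA : Prop :=
  Stmt_BASE → ∀ (p : ℕ), p.Prime → Obstruction p p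

/-- GRPB: `q = 1`, `p ≥ 5`.  `P` a Sylow subgroup, `w₀` any fixed point (CNT), `a = w₀.out.out`,
`ξ = cw w₀`; `τ = a (v t^j v⁻¹) a⁻¹ ∈ P ∩ I` from TAU, `s₁, s₁'` from SG; the weight FB.  For a
fixed point `w ≠ w₀`, `b = w.out.out`, one has `cw w (τ) = ψ((b⁻¹ a v) t^j (b⁻¹ a v)⁻¹)` with
`b⁻¹ a v ∉ H` (the orbits of fixed points are single points, so `b H ≠ a H`), which is `1` by the
hypothesis on `t` (`x = (b⁻¹ a v)⁻¹`); so `F(cw w) = 0` by `Good.unr`, and the value at the left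
side is `m F(ξ) ≠ 0`. -/
def Stmt_GRPB : Prop :=
  Stmt_BASE → ∀ (p : ℕ), p.Prime → 5 ≤ p → Obstruction 1 p

/-! ## number fields -/

/-- INER: `I_{xP} = x I_P x⁻¹`, `I_P` is a group. -/
def Stmt_INER : Prop :=
  ∀ (ℓ : ℕ) (M : Type) [Field M] [NumberField M] (g : M ≃ₐ[ℚ] M), InertiaAbove ℓ g →
    (∀ x : M ≃ₐ[ℚ] M, InertiaAbove ℓ (x * g * x⁻¹)) ∧ ∀ n : ℕ, InertiaAbove ℓ (g ^ n)

/-- CMR: a product of two complex conjugations is trivial on every subfield `L` which is totally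
real or a CM field.  (`L` totally real: every embedding of `L` is real.  `L` CM: for `Φ` with
`Φ(c x) = conj Φ(x)` and `x ∈ L` one has `Φ(c x) = Φ(complexConj L x)`, so `c x = complexConj L x`
does not depend on `c`.) -/
def Stmt_CMR : Prop :=
  ∀ (M : Type) [Field M] [NumberField M] [IsGalois ℚ M] (L : IntermediateField ℚ M),
    (IsTotallyReal L ∨ IsCMField L) → conjProducts M ≤ L.fixingSubgroup

end StarkSh
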