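import Mathlib
import Pool.Agent.StarkSh.Stmts

/-!
# Rational valued virtual characters are killed
-/

open scoped Classical
open StarkSharp

namespace StarkSh

theorem CLR_thm : Stmt_CLR := by
  intro p G _ _ S F t s s' hgood f hf hrat
  choose n hn using fun ζ : S →* ℂˣ => int_mlt_virtual S ζ f hf
  refine ⟨n, hn, hgood.rat n ?_⟩
  intro ζ j hj
  have hζ : ζ ^ (Nat.card S) = 1 := by
    refine MonoidHom.ext fun x => ?_
    rw [MonoidHom.pow_apply, ← map_pow, pow_card_eq_one', map_one, MonoidHom.one_apply]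
  have h := mlt_galois S ζ (Nat.card S) j Nat.card_pos hζ hj f hrat ⟨n ζ, hn ζ⟩
  rw [hn, hn] at h
  exact_mod_cast h

end StarkSh
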