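import Pool.Agent.StarkSh.Stmts

/-!
# CLU: characters induced from representations trivial on the inertia elements
-/

open scoped Classical
open StarkSharp NumberField

namespace StarkSh

namespace CLUx

theorem extF_mul {G : Type} [Group G] (H : Subgroup G) (V : Type)
    [AddCommGroup V] [Module ℂ V] (ρ : Representation ℂ H V) (a x : G) (hx : x ∈ H)
    (h1 : ρ ⟨x, hx⟩ = 1) : extF H ρ.character (a * x) = extF H ρ.character a := by
  unfold extF
  by_cases ha : a ∈ H
  · rw [dif_pos ha, dif_pos (H.mul_mem ha hx)]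
    have h2 : (⟨a * x, H.mul_mem ha hx⟩ : H) = ⟨a, ha⟩ * ⟨x, hx⟩ := rfl
    unfold Representation.character
    rw [h2, map_mul, h1, mul_one]
  · have h2 : a * x ∉ H := by
      intro h
      apply ha
      have := H.mul_mem h (H.inv_mem hx)
      rwa [mul_inv_cancel_right] at this
    rw [dif_neg ha, dif_neg h2]

theorem Iw_zero {G : Type} [Group G] [Fintype G] (S H : Subgroup G) (V : Type)
    [AddCommGroup V] [Module ℂ V] (ρ : Representation ℂ H V) (ζ : S →* ℂˣ) (y : G ⧸ H) (t : S)
    (ht : t ∈ MulAction.stabilizer S y) (hx : y.out⁻¹ * (t : G) * y.out ∈ H)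
    (h1 : ρ ⟨y.out⁻¹ * (t : G) * y.out, hx⟩ = 1) (hz : ζ t ≠ 1) :
    Iw S H ρ.character ζ y = 0 := by
  unfold Iw
  set g : MulAction.stabilizer S y → ℂ := fun u =>
    extF H ρ.character (y.out⁻¹ * ((u : S) : G) * y.out) * ((ζ u : ℂ))⁻¹ with hg
  have h2 : ∑ u : MulAction.stabilizer S y, g (u * ⟨t, ht⟩) = ∑ u, g u :=
    Fintype.sum_equiv (Equiv.mulRight (⟨t, ht⟩ : MulAction.stabilizer S y)) _ _ fun u => rfl
  have h3 : ∀ u : MulAction.stabilizer S y, g (u * ⟨t, ht⟩) = ((ζ t : ℂ))⁻¹ * g u := by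
    intro u
    rw [hg]
    simp only
    have e1 : y.out⁻¹ * (((u * ⟨t, ht⟩ : MulAction.stabilizer S y) : S) : G) * y.out =
        (y.out⁻¹ * ((u : S) : G) * y.out) * (y.out⁻¹ * (t : G) * y.out) := by
      simp only [Subgroup.coe_mul]
      group
    have e2 : ζ ((u * ⟨t, ht⟩ : MulAction.stabilizer S y) : S) = ζ u * ζ t := by
      rw [← map_mul]
      rfl
    rw [e1, extF_mul H V ρ _ _ hx h1, e2]
    push_cast
    rw [mul_inv]
    ring
  have h4 : (((ζ t : ℂ))⁻¹ - 1) * ∑ u, g u = 0 := by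
    rw [sub_mul, one_mul, Finset.mul_sum]
    rw [← Finset.sum_congr rfl (fun u _ => h3 u), h2, sub_self]
  have h5 : ((ζ t : ℂ))⁻¹ - 1 ≠ 0 := by
    intro h
    apply hz
    have h6 : ((ζ t : ℂ))⁻¹ = 1 := by linear_combination h
    rw [inv_eq_one] at h6
    exact Units.ext h6
  rcases mul_eq_zero.mp h4 with h6 | h6
  · exact absurd h6 h5
  · rw [h6, zero_div]

end CLUx

theorem CLU_thm : Stmt_CLU := by
  intro hIND hNFULL hCOS hORDP p hp G _ _ I hI S hS F t s s' htI hgood f hf
  unfold IndU at hf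
  induction hf using AddSubgroup.closure_induction with
  | mem f hf =>
    obtain ⟨H, V, i1, i2, i3, ρ, hρ, rfl⟩ := hf
    refine hIND p G S H F V ρ ?_
    intro y n hn
    by_cases hy : MulAction.stabilizer S y = ⊤
    · have ht : t ∈ MulAction.stabilizer S y := by
        rw [hy]
        exact Subgroup.mem_top t
      have hx : y.out⁻¹ * (t : G) * y.out ∈ H := by
        rw [mem_of_smul_eq]
        exact MulAction.mem_stabilizer_iff.mp ht
      have h1 : ρ ⟨y.out⁻¹ * (t : G) * y.out, hx⟩ = 1 := by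
        apply hρ
        have := hI t htI y.out⁻¹
        simpa using this
      refine Finset.sum_eq_zero fun ζ _ => ?_
      by_cases hz : ζ t = 1
      · rw [hgood.unr ζ hz, zero_mul]
      · have h2 := hn ζ
        rw [CLUx.Iw_zero S H V ρ ζ y t ht hx h1 hz] at h2
        have h3 : n ζ = 0 := by exact_mod_cast h2.symm
        rw [h3, Int.cast_zero, mul_zero]
    · exact hNFULL hCOS hORDP p hp G S H hS F hgood.cos V ρ y hy n hn
  | zero => exact Killed.zero p S F
  | add f g _ _ ihf ihg => exact ihf.add ihg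
  | neg f _ ihf => exact ihf.neg

end StarkSh
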