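import Pool.Agent.StarkSh.Stmts

/-!
# Sharpness: complex conjugations on totally real and CM subfields
-/

open scoped Classical
open StarkSharp NumberField

namespace StarkSh

namespace CMRx

/-- If all the complex embeddings of `L` turn `σ : L → L` into complex conjugation, then a product
of two complex conjugations of `M` is trivial on `L`. -/
theorem le_fixing {M : Type} [Field M] [NumberField M] (L : IntermediateField ℚ M)
    (σ : L → L) (h1 : ∀ x, σ (σ x) = x)
    (h2 : ∀ (φ : L →+* ℂ) (x : L), φ (σ x) = (starRingEnd ℂ) (φ x)) :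
    conjProducts M ≤ L.fixingSubgroup := by
  have key : ∀ c : M ≃ₐ[ℚ] M, IsComplexConj c → ∀ x : L, c (x : M) = (σ x : M) := by
    rintro c ⟨Φ, hΦ⟩ x
    apply Φ.injective
    have h3 := hΦ.eq (x : M)
    have h4 := h2 (Φ.comp (algebraMap L M)) x
    rw [RingHom.comp_apply, RingHom.comp_apply] at h4
    rw [h3]
    exact h4.symm
  unfold conjProducts
  rw [Subgroup.closure_le]
  rintro _ ⟨c₁, c₂, hc₁, hc₂, rfl⟩
  show c₁ * c₂ ∈ L.fixingSubgroup
  rw [IntermediateField.mem_fixingSubgroup_iff]
  intro x hx
  rw [AlgEquiv.mul_apply, key c₂ hc₂ ⟨x, hx⟩, key c₁ hc₁, h1]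

end CMRx

theorem CMR_thm : Stmt_CMR := by
  intro M _ _ _ L hL
  rcases hL with hL | hL
  · refine CMRx.le_fixing L id (fun x => rfl) fun φ x => ?_
    have h := (InfinitePlace.isReal_mk_iff (φ := φ)).mp (hL.isReal (InfinitePlace.mk φ))
    have h2 := ComplexEmbedding.isReal_iff.mp h
    have h3 := RingHom.congr_fun h2 x
    rw [ComplexEmbedding.conjugate_coe_eq] at h3
    exact h3.symm
  · exact CMRx.le_fixing L (IsCMField.complexConj L) (IsCMField.complexConj_apply_apply L)
      (IsCMField.complexEmbedding_complexConj L)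

end StarkSh
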