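import Pool.Agent.StarkSh.Stmts

/-!
# CNT: the number of fixed points of a Sylow subgroup
-/

open scoped Classical
open StarkSharp

namespace StarkSh

namespace CNTx

theorem card_fullPts {p : ℕ} [Fact p.Prime] {G : Type} [Group G] [Fintype G] (P : Sylow p G)
    (H : Subgroup G) (hH : ¬ p ∣ H.index) : ¬ p ∣ (fullPts (P : Subgroup G) H).card := by
  have h1 : Nat.card (G ⧸ H) ≡ Nat.card (MulAction.fixedPoints P (G ⧸ H)) [MOD p] :=
    P.isPGroup'.card_modEq_card_fixedPoints (G ⧸ H)
  have h2 : (fullPts (P : Subgroup G) H).card = Nat.card (MulAction.fixedPoints P (G ⧸ H)) := by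
    rw [← Fintype.card_coe, ← Nat.card_eq_fintype_card]
    refine Nat.card_congr ?_
    refine Equiv.ofBijective (fun w => ⟨(w.1.out : G ⧸ H), ?_⟩) ⟨?_, ?_⟩
    · rw [MulAction.mem_fixedPoints]
      intro s
      have h3 := (mem_fullPts _ _ _).mp w.2
      exact (mem_of_smul_eq (s : G) _).mp (h3 s s.2)
    · intro w w' hww
      have h3 : (w.1.out : G ⧸ H) = w'.1.out := congrArg Subtype.val hww
      apply Subtype.ext
      rw [← Quotient.out_eq' w.1, ← Quotient.out_eq' w'.1]
      exact congrArg _ h3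
    · rintro ⟨y, hy⟩
      rw [MulAction.mem_fixedPoints] at hy
      have h4 : ((Quotient.mk'' y : MulAction.orbitRel.Quotient P (G ⧸ H)).out : G ⧸ H) = y := by
        have h5 : (Quotient.mk'' ((Quotient.mk'' y : MulAction.orbitRel.Quotient P (G ⧸ H)).out) :
            MulAction.orbitRel.Quotient P (G ⧸ H)) = Quotient.mk'' y := Quotient.out_eq' _
        rw [Quotient.eq''] at h5
        obtain ⟨t, ht⟩ := h5
        rw [← ht]
        exact hy t
      refine ⟨⟨Quotient.mk'' y, ?_⟩, ?_⟩
      · rw [fullPts, Finset.mem_filter]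
        refine ⟨Finset.mem_univ _, fun s hs => ?_⟩
        rw [mem_of_smul_eq, h4]
        exact hy ⟨s, hs⟩
      · apply Subtype.ext
        exact h4
  rw [h2]
  intro h
  apply hH
  exact (h1.dvd_iff dvd_rfl).mpr h

end CNTx

theorem CNT_thm : Stmt_CNT := by
  intro p hp G _ _ P H hH X κ
  have : Fact p.Prime := ⟨hp⟩
  have hcard := CNTx.card_fullPts P H hH
  by_contra hcon
  apply hcard
  rw [Finset.card_eq_sum_card_image κ (fullPts (P : Subgroup G) H)]
  refine Finset.dvd_sum ?_
  intro b hb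
  rw [Finset.mem_image] at hb
  obtain ⟨w₀, hw₀, rfl⟩ := hb
  by_contra h
  exact hcon ⟨w₀, hw₀, h⟩

end StarkSh
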