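import Pool.Agent.StarkSh.Stmts

/-!
# COS: a sum over the cosets of a subgroup of order `p`
-/

open scoped Classical

namespace StarkSh.COSx

theorem iter_inv {X M : Type} [CommGroup X] (n : X → M) (δ : X)
    (hn : ∀ x, n (x * δ) = n x) (x : X) (j : ℕ) : n (x * δ ^ j) = n x := by
  induction j with
  | zero => simp
  | succ j ih => rw [pow_succ, ← mul_assoc, hn, ih]

theorem fiber_eq {X : Type} [CommGroup X] [Fintype X] (p : ℕ) (δ : X)
    (hord : orderOf δ = p) (x : X) :
    (Finset.univ.filter fun y : X => (y : X ⧸ Subgroup.zpowers δ) = (x : X ⧸ Subgroup.zpowers δ)) =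
      (Finset.range p).image (fun j => x * δ ^ j) := by
  ext y
  simp only [Finset.mem_filter, Finset.mem_univ, true_and, Finset.mem_image, Finset.mem_range]
  constructor
  · intro h
    have h1 : x⁻¹ * y ∈ Subgroup.zpowers δ := QuotientGroup.eq.1 h.symm
    have h2 : x⁻¹ * y ∈ Submonoid.powers δ := by
      rwa [mem_powers_iff_mem_zpowers]
    rw [mem_powers_iff_mem_range_orderOf, hord] at h2
    obtain ⟨j, hj, hj2⟩ := Finset.mem_image.1 h2
    refine ⟨j, Finset.mem_range.1 hj, ?_⟩
    rw [hj2]
    group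
  · rintro ⟨j, -, rfl⟩
    apply Eq.symm
    apply QuotientGroup.eq.2
    rw [inv_mul_cancel_left]
    exact Subgroup.npow_mem_zpowers δ j

end StarkSh.COSx

namespace StarkSh

theorem COS_thm : Stmt_COS := by
  intro p hp X _ _ F n δ hδ hδ1 hn hF
  have hord : orderOf δ = p := by
    have := Fact.mk hp
    exact orderOf_eq_prime hδ hδ1
  have hmaps : ∀ x ∈ (Finset.univ : Finset X),
      (x : X ⧸ Subgroup.zpowers δ) ∈ (Finset.univ : Finset (X ⧸ Subgroup.zpowers δ)) :=
    fun x _ => Finset.mem_univ _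
  rw [← Finset.sum_fiberwise_of_maps_to hmaps]
  refine Finset.sum_eq_zero fun q _ => ?_
  obtain ⟨x, rfl⟩ := QuotientGroup.mk_surjective q
  rw [COSx.fiber_eq p δ hord x]
  have hinj : Set.InjOn (fun j : ℕ => x * δ ^ j) (Finset.range p : Set ℕ) := by
    intro i hi j hj hij
    have h1 : δ ^ i = δ ^ j := mul_left_cancel hij
    have hi' : i < orderOf δ := by rw [hord]; simpa using hi
    have hj' : j < orderOf δ := by rw [hord]; simpa using hj
    exact pow_injOn_Iio_orderOf hi' hj' h1
  rw [Finset.sum_image (fun i hi j hj hij => hinj hi hj hij)]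
  simp only [COSx.iter_inv n δ hn]
  rw [← Finset.sum_mul, hF x, zero_mul]

end StarkSh
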