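import Pool.Agent.Lib_helper3.SH.Field

/-!
# Sharpness: definitions for the group theoretic part

`S` is a subgroup of the finite group `G`, `X = Hom(S, ℂˣ)`.  A weight `F : X → ℤ/p` gives the
functional `θ ↦ ∑ F(ζ) ⟨θ|S, ζ⟩` on the virtual characters of `G`.
-/

open scoped Classical
open StarkSharp

namespace StarkSh

theorem finite_char (S : Type) [Group S] [Finite S] : Finite (S →* ℂˣ) := by
  have hpos : 0 < Nat.card S := Nat.card_pos
  have : NeZero (Nat.card S) := ⟨hpos.ne'⟩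
  have h : ∀ (f : S →* ℂˣ) (s : S), f s ∈ rootsOfUnity (Nat.card S) ℂ := by
    intro f s
    rw [mem_rootsOfUnity, ← map_pow, pow_card_eq_one', map_one]
  refine Finite.of_injective
    (fun (f : S →* ℂˣ) (s : S) => (⟨f s, h f s⟩ : rootsOfUnity (Nat.card S) ℂ)) ?_
  intro f g hfg
  refine MonoidHom.ext fun s => ?_
  have := congrFun hfg s
  exact congrArg Subtype.val this

noncomputable instance instFintypeChar (S : Type) [Group S] [Finite S] : Fintype (S →* ℂˣ) :=
  have := finite_char S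
  Fintype.ofFinite _

variable {G : Type} [Group G] [Fintype G]

/-- `θ` has integral multiplicities on `S` and the functional with weight `F` kills it. -/
def Killed (p : ℕ) (S : Subgroup G) (F : (S →* ℂˣ) → ZMod p) (θ : G → ℂ) : Prop :=
  ∃ n : (S →* ℂˣ) → ℤ, (∀ ζ, mlt S θ ζ = n ζ) ∧ ∑ ζ : S →* ℂˣ, F ζ * (n ζ : ZMod p) = 0

theorem Killed.zero (p : ℕ) (S : Subgroup G) (F : (S →* ℂˣ) → ZMod p) :
    Killed p S F (0 : G → ℂ) :=
  ⟨fun _ => 0, fun ζ => by rw [mlt_zero]; simp, by simp⟩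

theorem Killed.add {p : ℕ} {S : Subgroup G} {F : (S →* ℂˣ) → ZMod p} {θ θ' : G → ℂ}
    (h : Killed p S F θ) (h' : Killed p S F θ') : Killed p S F (θ + θ') := by
  obtain ⟨n, hn, hn0⟩ := h
  obtain ⟨m, hm, hm0⟩ := h'
  refine ⟨fun ζ => n ζ + m ζ, fun ζ => by rw [mlt_add, hn, hm]; push_cast; ring, ?_⟩
  push_cast
  simp only [mul_add]
  rw [Finset.sum_add_distrib, hn0, hm0, add_zero]

theorem Killed.neg {p : ℕ} {S : Subgroup G} {F : (S →* ℂˣ) → ZMod p} {θ : G → ℂ}
    (h : Killed p S F θ) : Killed p S F (-θ) := by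
  obtain ⟨n, hn, hn0⟩ := h
  refine ⟨fun ζ => - n ζ, fun ζ => by rw [mlt_neg, hn]; push_cast; ring, ?_⟩
  push_cast
  simp only [mul_neg]
  rw [Finset.sum_neg_distrib, hn0, neg_zero]

/-- the multiplicities are unique -/
theorem Killed.sum_eq_zero {p : ℕ} {S : Subgroup G} {F : (S →* ℂˣ) → ZMod p} {θ : G → ℂ}
    (h : Killed p S F θ) (m : (S →* ℂˣ) → ℤ) (hm : ∀ ζ, mlt S θ ζ = m ζ) :
    ∑ ζ : S →* ℂˣ, F ζ * (m ζ : ZMod p) = 0 := by
  obtain ⟨n, hn, hn0⟩ := h
  rw [← hn0]
  refine Finset.sum_congr rfl fun ζ _ => ?_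
  have h1 : (m ζ : ℂ) = (n ζ : ℂ) := by rw [← hm, hn]
  have h2 : m ζ = n ζ := by exact_mod_cast h1
  rw [h2]

/-- The properties of a weight which are used: `t, s, s'` are elements of `S`. -/
structure Good (p : ℕ) (S : Subgroup G) (F : (S →* ℂˣ) → ZMod p) (t s s' : S) : Prop where
  /-- the sum over the cosets of the subgroups of order `p` is zero -/
  cos : ∀ ζ δ : S →* ℂˣ, δ ^ p = 1 → δ ≠ 1 → ∑ j ∈ Finset.range p, F (ζ * δ ^ j) = 0
  real : ∀ ζ : S →* ℂˣ, ζ s' = ζ s → F ζ = 0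
  unr : ∀ ζ : S →* ℂˣ, ζ t = 1 → F ζ = 0
  rat : ∀ n : (S →* ℂˣ) → ℤ,
    (∀ (ζ : S →* ℂˣ) (j : ℕ), j.Coprime (Nat.card S) → n (ζ ^ j) = n ζ) →
      ∑ ζ : S →* ℂˣ, F ζ * (n ζ : ZMod p) = 0

/-- The group generated by the characters induced from subgroups of index divisible by `p`. -/
noncomputable def IndP (p : ℕ) (G : Type) [Group G] [Fintype G] : AddSubgroup (G → ℂ) :=
  AddSubgroup.closure {f | ∃ (H : Subgroup G) (V : Type) (_ : AddCommGroup V) (_ : Module ℂ V)
    (_ : Module.Finite ℂ V) (ρ : Representation ℂ H V), p ∣ H.index ∧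
      f = indFun H (extF H ρ.character)}

/-- The group generated by the characters induced from linear characters of subgroups which
contain `D`. -/
noncomputable def IndD (D : Subgroup G) : AddSubgroup (G → ℂ) :=
  AddSubgroup.closure {f | ∃ (H : Subgroup G) (ψ : H →* ℂˣ), D ≤ H ∧
      f = indFun H (extF H (fun h => (ψ h : ℂ)))}

/-- The group generated by the characters induced from representations of subgroups `H` which are
trivial on `H ∩ I`. -/
noncomputable def IndU (I : Set G) : AddSubgroup (G → ℂ) :=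
  AddSubgroup.closure {f | ∃ (H : Subgroup G) (V : Type) (_ : AddCommGroup V) (_ : Module ℂ V)
    (_ : Module.Finite ℂ V) (ρ : Representation ℂ H V), (∀ h : H, (h : G) ∈ I → ρ h = 1) ∧
      f = indFun H (extF H ρ.character)}

/-- the character `s ↦ ψ(a⁻¹ s a)` of `S` at the orbit of `a H`, if `S` fixes this point -/
noncomputable def cw (S H : Subgroup G) (ψ : H →* ℂˣ)
    (w : MulAction.orbitRel.Quotient S (G ⧸ H)) : S →* ℂˣ :=
  if h : ∀ s ∈ S, (w.out : G ⧸ H).out⁻¹ * s * (w.out : G ⧸ H).out ∈ H then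
    conjChar S H ψ w.out h else 1

end StarkSh
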