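import Pool.Agent.StarkSh.Stmts

/-!
# The value of the functional at an induced linear character
-/

open scoped Classical
open StarkSharp

namespace StarkSh.EVALx

variable {G : Type} [Group G] [Fintype G]

theorem cw_eq (S H : Subgroup G) (ψ : H →* ℂˣ) (w : MulAction.orbitRel.Quotient S (G ⧸ H))
    (h : ∀ s ∈ S, (w.out : G ⧸ H).out⁻¹ * s * (w.out : G ⧸ H).out ∈ H) :
    cw S H ψ w = conjChar S H ψ w.out h := by
  unfold cw
  rw [dif_pos h]

theorem full_sum (p : ℕ) (S H : Subgroup G) (ψ : H →* ℂˣ) (F : (S →* ℂˣ) → ZMod p)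
    (w : MulAction.orbitRel.Quotient S (G ⧸ H))
    (h : ∀ s ∈ S, (w.out : G ⧸ H).out⁻¹ * s * (w.out : G ⧸ H).out ∈ H)
    (n : (S →* ℂˣ) → ℤ) (hn : ∀ ζ, Iw S H (linRep ψ).character ζ w.out = n ζ) :
    ∑ ζ : S →* ℂˣ, F ζ * (n ζ : ZMod p) = F (cw S H ψ w) := by
  rw [cw_eq S H ψ w h]
  have h1 : ∀ ζ : S →* ℂˣ, n ζ = if conjChar S H ψ w.out h = ζ then 1 else 0 := by
    intro ζ
    have h2 := hn ζ
    rw [Iw_full S H ψ w.out h ζ] at h2
    by_cases h3 : conjChar S H ψ w.out h = ζ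
    · rw [if_pos h3] at h2 ⊢
      exact_mod_cast h2.symm
    · rw [if_neg h3] at h2 ⊢
      exact_mod_cast h2.symm
  simp only [h1]
  rw [Finset.sum_eq_single (conjChar S H ψ w.out h)]
  · rw [if_pos rfl]
    simp
  · intro ζ _ hζ
    rw [if_neg (fun h4 => hζ h4.symm)]
    simp
  · intro h4
    exact absurd (Finset.mem_univ _) h4

end StarkSh.EVALx

namespace StarkSh

open EVALx

theorem EVAL_thm : Stmt_EVAL := by
  intro hNF hCOS hORDP p hp G _ _ S H hS F hF ψ
  have hchar : (fun h : H => (ψ h : ℂ)) = (linRep ψ).character := by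
    funext h
    rw [linRep_character]
  rw [hchar]
  have hex : ∀ (w : MulAction.orbitRel.Quotient S (G ⧸ H)) (ζ : S →* ℂˣ),
      ∃ n : ℤ, Iw S H (linRep ψ).character ζ w.out = n := fun w ζ => int_Iw S H (linRep ψ) ζ w.out
  choose N hN using hex
  refine ⟨fun ζ => ∑ w : MulAction.orbitRel.Quotient S (G ⧸ H), N w ζ, ?_, ?_⟩
  · intro ζ
    rw [mlt_ind S (char_class (linRep ψ)) ζ]
    push_cast
    exact Finset.sum_congr rfl fun w _ => hN w ζ
  · have h1 : ∑ ζ : S →* ℂˣ,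
        F ζ * ((∑ w : MulAction.orbitRel.Quotient S (G ⧸ H), N w ζ : ℤ) : ZMod p)
        = ∑ w : MulAction.orbitRel.Quotient S (G ⧸ H), ∑ ζ : S →* ℂˣ,
          F ζ * (N w ζ : ZMod p) := by
      rw [Finset.sum_comm]
      refine Finset.sum_congr rfl fun ζ _ => ?_
      rw [Int.cast_sum, Finset.mul_sum]
    rw [h1]
    rw [← Finset.sum_subset (Finset.subset_univ (fullPts S H))]
    · refine Finset.sum_congr rfl fun w hw => ?_
      exact full_sum p S H ψ F w ((mem_fullPts S H w).mp hw) (N w) (hN w)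
    · intro w _ hw
      refine hNF hCOS hORDP p hp G S H hS F hF ℂ (linRep ψ) w.out ?_ (N w) (hN w)
      intro htop
      apply hw
      rw [mem_fullPts]
      exact (stab_eq_top_iff S H w.out).mp htop

end StarkSh
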