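import Pool.Agent.StarkSh.Stmts

/-!
# Sharpness: the weight of the points with the same `p`-th power (module FA)
-/

open scoped Classical
open StarkSharp

namespace StarkSh

namespace FAx

theorem apply_of_pow_eq {S : Type} [Group S] {p : ℕ} {ζ ξ : S →* ℂˣ} (h : ζ ^ p = ξ ^ p)
    (x : S) : (ζ x) ^ p = (ξ x) ^ p := by
  have h1 := DFunLike.congr_fun h x
  rwa [MonoidHom.pow_apply, MonoidHom.pow_apply] at h1

/-- the exponent of the order of an element with nontrivial `p`-th power -/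
theorem exists_order {X : Type} [Group X] {p N : ℕ} (hp : p.Prime) (ξ : X)
    (h1 : ξ ^ (p ^ N) = 1) (hξ : ξ ^ p ≠ 1) :
    ∃ e : ℕ, 1 ≤ e ∧ ξ ^ (p ^ e) ≠ 1 ∧ (ξ ^ (p ^ e)) ^ p = 1 := by
  obtain ⟨k, _, hk⟩ := (Nat.dvd_prime_pow hp).1 (orderOf_dvd_of_pow_eq_one h1)
  have hk2 : 2 ≤ k := by
    by_contra hcon
    apply hξ
    rw [← orderOf_dvd_iff_pow_eq_one, hk]
    have h2 : k ≤ 1 := by omega
    calc p ^ k ∣ p ^ 1 := pow_dvd_pow p h2
      _ = p := pow_one p
  refine ⟨k - 1, by omega, ?_, ?_⟩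
  · intro h
    rw [← orderOf_dvd_iff_pow_eq_one, hk, Nat.pow_dvd_pow_iff_le_right hp.one_lt] at h
    omega
  · rw [← pow_mul, ← pow_succ, Nat.sub_add_cancel (by omega), ← hk]
    exact pow_orderOf_eq_one ξ

/-- the same facts for characters -/
theorem exists_delta {S : Type} [Group S] [Finite S] {p : ℕ} (hp : p.Prime) (hS : IsPGroup p S)
    (ξ : S →* ℂˣ) (hξ : ξ ^ p ≠ 1) :
    ∃ (e : ℕ) (δ : S →* ℂˣ), 1 ≤ e ∧ δ ≠ 1 ∧ (∀ x, (δ x) ^ p = 1) ∧
      ∀ x, δ x = (ξ x) ^ (p ^ e) := by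
  have := Fact.mk hp
  obtain ⟨N, hN⟩ := IsPGroup.iff_card.1 hS
  have h1 : ξ ^ (p ^ N) = 1 := by
    ext x
    rw [MonoidHom.pow_apply, ← map_pow, ← hN, pow_card_eq_one', map_one, MonoidHom.one_apply]
  obtain ⟨e, he, h2, h3⟩ := exists_order (X := S →* ℂˣ) hp ξ h1 hξ
  refine ⟨e, ξ ^ (p ^ e), he, h2, ?_, ?_⟩
  · intro x
    have h4 := DFunLike.congr_fun h3 x
    exact h4
  · intro x
    rfl

theorem main : Stmt_FA := by
  intro hcos p hp G _ _ S hS ξ t s s' ht hs
  have := Fact.mk hp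
  have hpz : (p : ZMod p) = 0 := ZMod.natCast_self p
  have hshift : ∀ ζ δ : S →* ℂˣ, (∀ x, (δ x) ^ p = 1) → (ζ * δ) ^ p = ζ ^ p := by
    intro ζ δ hδ
    ext x
    rw [MonoidHom.pow_apply, MonoidHom.pow_apply, MonoidHom.mul_apply, mul_pow, hδ, mul_one]
  refine ⟨?_, ?_, ?_, ?_⟩
  · intro ζ δ hδ _
    have h1 : ∀ j ∈ Finset.range p, (if (ζ * δ ^ j) ^ p = ξ ^ p then (1 : ZMod p) else 0) =
        if ζ ^ p = ξ ^ p then (1 : ZMod p) else 0 := by
      intro j _
      rw [hshift ζ (δ ^ j)]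
      intro x
      have h2 : (δ x) ^ p = 1 := by
        have h3 := DFunLike.congr_fun hδ x
        rwa [MonoidHom.pow_apply, MonoidHom.one_apply] at h3
      rw [MonoidHom.pow_apply, ← pow_mul, mul_comm, pow_mul, h2, one_pow]
    rw [Finset.sum_congr rfl h1, Finset.sum_const, Finset.card_range, nsmul_eq_mul, hpz, zero_mul]
  · intro ζ hζ
    rw [if_neg]
    intro h
    apply hs
    rw [← apply_of_pow_eq h, ← apply_of_pow_eq h, hζ]
  · intro ζ hζ
    rw [if_neg]
    intro h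
    apply ht
    rw [← apply_of_pow_eq h, hζ, one_pow]
  · intro n hn
    have hξ : ξ ^ p ≠ 1 := by
      intro h
      apply ht
      have h1 := DFunLike.congr_fun h t
      rwa [MonoidHom.pow_apply, MonoidHom.one_apply] at h1
    obtain ⟨e, δ, he, hδ1, hδp, hδ⟩ := exists_delta hp hS ξ hξ
    obtain ⟨N, hN⟩ := IsPGroup.iff_card.1 hS
    have hδp' : δ ^ p = 1 := by
      ext x
      rw [MonoidHom.pow_apply, hδp, MonoidHom.one_apply]
    have h := hcos p hp (S →* ℂˣ) (fun _ => 1)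
      (fun ζ => (if ζ ^ p = ξ ^ p then (1 : ZMod p) else 0) * (n ζ : ZMod p))
      δ hδp' hδ1 ?_ ?_
    · simpa using h
    · intro x
      have h1 : (x * δ) ^ p = x ^ p := hshift x δ hδp
      simp only [h1]
      by_cases hx : x ^ p = ξ ^ p
      · have h2 : x * δ = x ^ (1 + p ^ e) := by
          ext y
          rw [MonoidHom.mul_apply, MonoidHom.pow_apply, pow_add, pow_one]
          congr 2
          obtain ⟨e', rfl⟩ : ∃ e', e = e' + 1 := ⟨e - 1, by omega⟩
          rw [hδ, pow_succ', pow_mul, pow_mul, apply_of_pow_eq hx]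
        have h3 : (1 + p ^ e).Coprime (Nat.card S) := by
          rw [hN]
          apply Nat.Coprime.pow_right
          rw [Nat.coprime_comm]
          rw [Nat.Prime.coprime_iff_not_dvd hp]
          intro h4
          have h5 : p ∣ p ^ e := dvd_pow_self p (by omega)
          have h6 : p ∣ 1 := (Nat.dvd_add_left h5).1 h4
          exact hp.one_lt.ne' (Nat.dvd_one.1 h6)
        rw [h2, hn x _ h3]
      · rw [if_neg hx, zero_mul, zero_mul]
    · intro x
      rw [Finset.sum_const, Finset.card_range, nsmul_eq_mul, hpz, zero_mul]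

end FAx

/-- FA: the weight of the characters with the same `p`-th power. -/
theorem FA_thm : Stmt_FA := FAx.main

end StarkSh
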