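import Pool.Agent.StarkSh.Stmts

/-!
# FB: the quadratic weight
-/

open scoped Classical
open StarkSharp

namespace StarkSh

namespace FBx

/-- discrete logarithm with respect to `a` (zero outside the group generated by `a`) -/
noncomputable def dl {M : Type*} [CommGroup M] (p : ℕ) (a z : M) : ZMod p :=
  if h : ∃ k : ℤ, a ^ k = z then ((h.choose : ℤ) : ZMod p) else 0

theorem dl_zpow {M : Type*} [CommGroup M] {p : ℕ} {a : M} (ha : orderOf a = p) (k : ℤ) :
    dl p a (a ^ k) = (k : ZMod p) := by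
  unfold dl
  have h : ∃ l : ℤ, a ^ l = a ^ k := ⟨k, rfl⟩
  rw [dif_pos h]
  have h1 := h.choose_spec
  rw [zpow_eq_zpow_iff_modEq, ha] at h1
  exact (ZMod.intCast_eq_intCast_iff _ _ _).2 h1

theorem dl_of_not {M : Type*} [CommGroup M] {p : ℕ} {a z : M} (h : ¬ ∃ k : ℤ, a ^ k = z) :
    dl p a z = 0 := by
  unfold dl
  rw [dif_neg h]

theorem dl_one {M : Type*} [CommGroup M] {p : ℕ} {a : M} (ha : orderOf a = p) :
    dl p a 1 = 0 := by
  have := dl_zpow ha 0
  simpa using this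

theorem dl_self {M : Type*} [CommGroup M] {p : ℕ} {a : M} (ha : orderOf a = p) :
    dl p a a = 1 := by
  have := dl_zpow ha 1
  simpa using this

/-- the discrete logarithm of a square, for elements of odd order -/
theorem dl_sq {M : Type*} [CommGroup M] {p : ℕ} {a : M} (ha : orderOf a = p) (z : M) (N : ℕ)
    (hN : Odd N) (hz : z ^ N = 1) : dl p a (z ^ 2) = 2 * dl p a z := by
  by_cases h : ∃ k : ℤ, a ^ k = z
  · obtain ⟨k, rfl⟩ := h
    have h1 : (a ^ k) ^ 2 = a ^ (2 * k) := by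
      rw [← zpow_natCast, ← zpow_mul]
      congr 1
      push_cast
      ring
    rw [h1, dl_zpow ha, dl_zpow ha]
    push_cast
    ring
  · have h2 : ¬ ∃ k : ℤ, a ^ k = z ^ 2 := by
      rintro ⟨k, hk⟩
      obtain ⟨m, hm⟩ := hN
      apply h
      refine ⟨k * (m + 1), ?_⟩
      rw [zpow_mul, hk]
      have h3 : z = (z ^ 2) ^ (m + 1) := by
        rw [← pow_mul]
        have : 2 * (m + 1) = N + 1 := by omega
        rw [this, pow_succ, hz, one_mul]
      have h4 : ((m : ℤ) + 1) = ((m + 1 : ℕ) : ℤ) := by push_cast; ring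
      rw [h4, zpow_natCast]
      exact h3.symm
    rw [dl_of_not h, dl_of_not h2]
    ring

/-- the discrete logarithm along a coset -/
theorem dl_mul_pow {M : Type*} [CommGroup M] {p : ℕ} {a : M} (ha : orderOf a = p)
    (hroots : ∀ d : M, d ^ p = 1 → ∃ k : ℤ, a ^ k = d) (z d : M) (hd : d ^ p = 1) :
    (∀ j : ℕ, dl p a (z * d ^ j) = 0) ∨
      ∃ x α : ZMod p, ∀ j : ℕ, dl p a (z * d ^ j) = x + j * α := by
  obtain ⟨l, rfl⟩ := hroots d hd
  by_cases h : ∃ k : ℤ, a ^ k = z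
  · obtain ⟨k, rfl⟩ := h
    right
    refine ⟨k, l, fun j => ?_⟩
    have h1 : a ^ k * (a ^ l) ^ j = a ^ (k + j * l) := by
      rw [← zpow_natCast, ← zpow_mul, ← zpow_add]
      congr 1
      ring
    rw [h1, dl_zpow ha]
    push_cast
    ring
  · left
    intro j
    apply dl_of_not
    rintro ⟨k, hk⟩
    apply h
    refine ⟨k - l * j, ?_⟩
    rw [zpow_sub, hk, zpow_mul, zpow_natCast]
    group

theorem sum_range_zmod (p : ℕ) [NeZero p] (f : ZMod p → ZMod p) :
    ∑ j ∈ Finset.range p, f (j : ZMod p) = ∑ x : ZMod p, f x := by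
  refine Finset.sum_nbij' (fun j => (j : ZMod p)) ZMod.val ?_ ?_ ?_ ?_ ?_
  · intro j _
    exact Finset.mem_univ _
  · intro x _
    exact Finset.mem_range.2 (ZMod.val_lt x)
  · intro j hj
    exact ZMod.val_cast_of_lt (Finset.mem_range.1 hj)
  · intro x _
    exact ZMod.natCast_zmod_val x
  · intro j _
    rfl

theorem sum_quad {p : ℕ} (hp : p.Prime) (h5 : 5 ≤ p) (x y α β : ZMod p) :
    ∑ j ∈ Finset.range p, (x + (j : ZMod p) * α) * (y + (j : ZMod p) * β) = 0 := by
  have : Fact p.Prime := ⟨hp⟩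
  rw [sum_range_zmod p (fun t => (x + t * α) * (y + t * β))]
  have h1 : ∑ t : ZMod p, t ^ 1 = 0 :=
    FiniteField.sum_pow_lt_card_sub_one _ 1 (by rw [ZMod.card]; omega)
  have h2 : ∑ t : ZMod p, t ^ 2 = 0 :=
    FiniteField.sum_pow_lt_card_sub_one _ 2 (by rw [ZMod.card]; omega)
  have h0 : ∑ t : ZMod p, (t : ZMod p) ^ 0 = 0 :=
    FiniteField.sum_pow_lt_card_sub_one _ 0 (by rw [ZMod.card]; omega)
  have e : ∀ t : ZMod p, (x + t * α) * (y + t * β) =
      (x * y) * t ^ 0 + (x * β + α * y) * t ^ 1 + (α * β) * t ^ 2 := by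
    intro t
    ring
  simp only [e, Finset.sum_add_distrib, ← Finset.mul_sum]
  rw [h0, h1, h2]
  ring

/-- every `p`-th root of unity in `ℂˣ` is a power of a given element of order `p` -/
theorem roots_zpow {p : ℕ} (hp : p.Prime) {a : ℂˣ} (ha : orderOf a = p) (d : ℂˣ)
    (hd : d ^ p = 1) : ∃ k : ℤ, a ^ k = d := by
  have : NeZero p := ⟨hp.ne_zero⟩
  have hprim : IsPrimitiveRoot a p := ha ▸ IsPrimitiveRoot.orderOf a
  have hprim' : IsPrimitiveRoot (a : ℂ) p := IsPrimitiveRoot.coe_units_iff.2 hprim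
  have hd' : (d : ℂ) ^ p = 1 := by
    rw [← Units.val_pow_eq_pow_val, hd, Units.val_one]
  obtain ⟨i, _, hi⟩ := hprim'.eq_pow_of_pow_eq_one hd'
  refine ⟨i, ?_⟩
  rw [zpow_natCast]
  ext
  rw [Units.val_pow_eq_pow_val, hi]

end FBx

open FBx in
theorem FB_thm : Stmt_FB := by
  intro p hp h5 G _ _ S hS ξ t s s' ht1 ht hs1 hs
  have hfact : Fact p.Prime := ⟨hp⟩
  set a : ℂˣ := ξ s' / ξ s with ha_def
  set b : ℂˣ := ξ t with hb_def
  have hap : a ^ p = 1 := by rw [ha_def, div_pow, hs1, div_self']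
  have ha1 : a ≠ 1 := by
    rw [ha_def]
    intro h
    exact hs (div_eq_one.1 h)
  have ha : orderOf a = p := orderOf_eq_prime hap ha1
  have hb : orderOf b = p := orderOf_eq_prime ht1 ht
  -- the order of `S`
  obtain ⟨k, hk⟩ := (IsPGroup.iff_card).1 hS
  have hodd : Odd (Nat.card S) := by
    rw [hk]
    exact (hp.odd_of_ne_two (by omega)).pow
  have hcard : ∀ (ζ : S →* ℂˣ) (u : S), (ζ u) ^ (Nat.card S) = 1 := by
    intro ζ u
    rw [← map_pow, pow_card_eq_one', map_one]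
  set F : (S →* ℂˣ) → ZMod p := fun ζ => dl p a (ζ s' / ζ s) * dl p b (ζ t) with hF
  have hFsq : ∀ ζ : S →* ℂˣ, F (ζ ^ 2) = 4 * F ζ := by
    intro ζ
    simp only [hF, MonoidHom.pow_apply]
    rw [← div_pow, dl_sq ha (ζ s' / ζ s) (Nat.card S) hodd
      (by rw [div_pow, hcard, hcard, div_self']), dl_sq hb (ζ t) (Nat.card S) hodd (hcard ζ t)]
    ring
  refine ⟨F, ⟨?_, ?_, ?_, ?_⟩, ?_⟩
  · intro ζ δ hδ _
    have hd1 : (δ s' / δ s) ^ p = 1 := by
      have h1 : (δ s') ^ p = 1 := by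
        rw [← MonoidHom.pow_apply, hδ, MonoidHom.one_apply]
      have h2 : (δ s) ^ p = 1 := by
        rw [← MonoidHom.pow_apply, hδ, MonoidHom.one_apply]
      rw [div_pow, h1, h2, div_self']
    have hd2 : (δ t) ^ p = 1 := by
      rw [← MonoidHom.pow_apply, hδ, MonoidHom.one_apply]
    have e1 : ∀ j : ℕ, (ζ * δ ^ j) s' / (ζ * δ ^ j) s = (ζ s' / ζ s) * (δ s' / δ s) ^ j := by
      intro j
      simp only [MonoidHom.mul_apply, MonoidHom.pow_apply]
      rw [div_pow, mul_div_mul_comm]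
    have e2 : ∀ j : ℕ, (ζ * δ ^ j) t = ζ t * (δ t) ^ j := by
      intro j
      simp only [MonoidHom.mul_apply, MonoidHom.pow_apply]
    have e3 : ∀ j ∈ Finset.range p, F (ζ * δ ^ j) =
        dl p a ((ζ s' / ζ s) * (δ s' / δ s) ^ j) * dl p b (ζ t * (δ t) ^ j) := by
      intro j _
      simp only [hF]
      rw [e1, e2]
    rw [Finset.sum_congr rfl e3]
    rcases dl_mul_pow ha (roots_zpow hp ha) (ζ s' / ζ s) (δ s' / δ s) hd1 with h | ⟨x, α, h⟩
    · exact Finset.sum_eq_zero fun j _ => by rw [h, zero_mul]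
    rcases dl_mul_pow hb (roots_zpow hp hb) (ζ t) (δ t) hd2 with h' | ⟨y, β, h'⟩
    · exact Finset.sum_eq_zero fun j _ => by rw [h', mul_zero]
    rw [Finset.sum_congr rfl (fun j _ => by rw [h, h'])]
    exact sum_quad hp h5 x y α β
  · intro ζ h
    simp only [hF]
    rw [h, div_self', dl_one ha, zero_mul]
  · intro ζ h
    simp only [hF]
    rw [h, dl_one hb, mul_zero]
  · intro n hn
    have hcop : Nat.Coprime 2 (Nat.card S) := by
      rw [Nat.coprime_two_left]
      exact hodd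
    obtain ⟨m, hm⟩ := hodd
    let e : (S →* ℂˣ) ≃ (S →* ℂˣ) :=
      { toFun := fun ζ => ζ ^ 2
        invFun := fun ζ => ζ ^ (m + 1)
        left_inv := by
          intro ζ
          refine MonoidHom.ext fun u => ?_
          show ((ζ u) ^ 2) ^ (m + 1) = ζ u
          rw [← pow_mul]
          have : 2 * (m + 1) = Nat.card S + 1 := by omega
          rw [this, pow_succ, hcard, one_mul]
        right_inv := by
          intro ζ
          refine MonoidHom.ext fun u => ?_
          show ((ζ u) ^ (m + 1)) ^ 2 = ζ u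
          rw [← pow_mul]
          have : (m + 1) * 2 = Nat.card S + 1 := by omega
          rw [this, pow_succ, hcard, one_mul] }
    have h1 : ∑ ζ : S →* ℂˣ, F ζ * (n ζ : ZMod p) =
        4 * ∑ ζ : S →* ℂˣ, F ζ * (n ζ : ZMod p) := by
      rw [Finset.mul_sum]
      rw [← Equiv.sum_comp e (fun ζ => F ζ * (n ζ : ZMod p))]
      refine Finset.sum_congr rfl fun ζ _ => ?_
      show F (ζ ^ 2) * (n (ζ ^ 2) : ZMod p) = _
      rw [hFsq, hn ζ 2 hcop]
      ring
    have h2 : (3 : ZMod p) * ∑ ζ : S →* ℂˣ, F ζ * (n ζ : ZMod p) = 0 := by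
      linear_combination -h1
    rcases mul_eq_zero.1 h2 with h3 | h3
    · exfalso
      have h4 : ((3 : ℕ) : ZMod p) = 0 := by exact_mod_cast h3
      rw [ZMod.natCast_eq_zero_iff] at h4
      have := Nat.le_of_dvd (by norm_num) h4
      omega
    · exact h3
  · simp only [hF]
    rw [← ha_def, ← hb_def, dl_self ha, dl_self hb, mul_one]
    exact one_ne_zero

end StarkSh
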