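import Pool.Agent.StarkSh.Stmts

/-!
# Sharpness: number fields
-/

open scoped Classical
open StarkSharp NumberField

namespace StarkSh

variable {M : Type} [Field M] [NumberField M]

theorem IndP_of_deg [IsGalois ℚ M] (p : ℕ) (a : (M ≃ₐ[ℚ] M) → ℂ) (ha : a ∈ inducedDegDiv p M) :
    a ∈ IndP p (M ≃ₐ[ℚ] M) := by
  refine AddSubgroup.closure_mono ?_ ha
  rintro _ ⟨K, V, i1, i2, i3, ρ, hK, rfl⟩
  exact ⟨K.fixingSubgroup, V, i1, i2, i3, ρ, by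
    rwa [← IntermediateField.finrank_eq_fixingSubgroup_index], rfl⟩

theorem IndD_of_realCM [IsGalois ℚ M] (hCMR : Stmt_CMR) (E : IntermediateField ℚ M)
    (b : (M ≃ₐ[ℚ] M) → ℂ) (hb : b ∈ inducedRealCM E) :
    b ∈ IndD (conjProducts M ⊓ E.fixingSubgroup) := by
  refine AddSubgroup.closure_mono ?_ hb
  rintro _ ⟨K, L, ψ, hL, hK, rfl⟩
  refine ⟨K.fixingSubgroup, ψ, ?_, rfl⟩
  intro g hg
  have h1 : g ∈ L.fixingSubgroup := hCMR M L hL hg.1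
  have h2 : g ∈ (E ⊔ L).fixingSubgroup := by
    rw [IntermediateField.fixingSubgroup_sup]
    exact ⟨hg.2, h1⟩
  exact IntermediateField.fixingSubgroup_antitone hK h2

theorem IndU_of_ram (p ℓ : ℕ) (u : (M ≃ₐ[ℚ] M) → ℂ) (hu : u ∈ inducedPrimeRam p ℓ M) :
    u ∈ IndU {g : M ≃ₐ[ℚ] M | InertiaAbove ℓ g ∧ ∃ n : ℕ, g ^ (p ^ n) = 1} := by
  refine AddSubgroup.closure_mono ?_ hu
  rintro _ ⟨K, V, i1, i2, i3, ρ, hK, rfl⟩
  refine ⟨K.fixingSubgroup, V, i1, i2, i3, ρ, ?_, rfl⟩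
  rintro h ⟨h1, n, hn⟩
  exact hK h h1 ⟨n, Subtype.ext hn⟩

/-- the `p`-part of an element -/
theorem exists_ppart {p : ℕ} (hp : p.Prime) {H : Type} [Group H] [Finite H] (ψ : H →* ℂˣ) (k : ℕ)
    (hψ : ψ ^ (p ^ k) = 1) (t : H) (q : ℕ) (h : (ψ t) ^ q ≠ 1) :
    ∃ j n : ℕ, (t ^ j) ^ (p ^ n) = 1 ∧ (ψ (t ^ j)) ^ q ≠ 1 := by
  obtain ⟨n, j, hj, hnj⟩ := Nat.exists_eq_pow_mul_and_not_dvd (orderOf_pos t).ne' p hp.ne_one
  refine ⟨j, n, ?_, ?_⟩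
  · rw [← pow_mul, mul_comm, ← hnj, pow_orderOf_eq_one]
  · intro h2
    apply h
    rw [map_pow, ← pow_mul, mul_comm, pow_mul] at h2
    have h3 : ((ψ t) ^ q) ^ (p ^ k) = 1 := by
      rw [← pow_mul, mul_comm, pow_mul]
      have : (ψ t) ^ (p ^ k) = 1 := by
        rw [← MonoidHom.pow_apply, hψ]
        rfl
      rw [this, one_pow]
    have h4 : Nat.Coprime j (p ^ k) :=
      ((Nat.coprime_comm.mp ((Nat.Prime.coprime_iff_not_dvd hp).mpr hj))).pow_right k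
    have h5 : orderOf ((ψ t) ^ q) ∣ Nat.gcd j (p ^ k) :=
      Nat.dvd_gcd (orderOf_dvd_of_pow_eq_one h2) (orderOf_dvd_of_pow_eq_one h3)
    rwa [h4, Nat.dvd_one, orderOf_eq_one_iff] at h5

theorem field_main (hINER : Stmt_INER) (hCMR : Stmt_CMR) {p q : ℕ} (hp : p.Prime)
    (hob : Obstruction q p)
    (ℓ : ℕ) [IsGalois ℚ M] (F E : IntermediateField ℚ M) [IsGalois ℚ E]
    (hF : ¬ p ∣ Module.finrank ℚ F) (ψ : F.fixingSubgroup →* ℂˣ) (k : ℕ)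
    (hψ : ψ ^ (p ^ k) = 1) (t s s' : F.fixingSubgroup) (c : M ≃ₐ[ℚ] M)
    (ht : InertiaAbove ℓ (t : M ≃ₐ[ℚ] M)) (hc : c ∈ conjProducts M) (hcE : c ∈ E.fixingSubgroup)
    (hs : (s' : M ≃ₐ[ℚ] M) = c * s * c⁻¹)
    (hq : q = p ∨ (q = 1 ∧ 5 ≤ p ∧ ∀ x : M ≃ₐ[ℚ] M, x ∉ F.fixingSubgroup →
      ∃ y : F.fixingSubgroup, (y : M ≃ₐ[ℚ] M) = x⁻¹ * t * x ∧ ψ y = 1))
    (hψt : (ψ t) ^ q ≠ 1) (hψs : (ψ s') ^ q ≠ (ψ s) ^ q)
    (m : ℤ) (hm : ¬ (p : ℤ) ∣ m) (a b u r : (M ≃ₐ[ℚ] M) → ℂ)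
    (ha : a ∈ inducedDegDiv p M) (hb : b ∈ inducedRealCM E) (hu : u ∈ inducedPrimeRam p ℓ M)
    (hr : r ∈ virtualChars (M ≃ₐ[ℚ] M)) (hrq : ∀ g, ∃ z : ℚ, r g = z) :
    (fun g => (m : ℂ) * indFun F.fixingSubgroup (extF F.fixingSubgroup (fun h => (ψ h : ℂ))) g)
      ≠ a + b + u + r := by
  have hEn : E.fixingSubgroup.Normal := fixingSubgroup_normal E
  have hNn : (conjProducts M ⊓ E.fixingSubgroup).Normal := inferInstance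
  obtain ⟨j, n, hjn, hj⟩ := exists_ppart hp ψ k hψ t q hψt
  refine hob (M ≃ₐ[ℚ] M) (conjProducts M ⊓ E.fixingSubgroup)
    {g | InertiaAbove ℓ g ∧ ∃ n : ℕ, g ^ (p ^ n) = 1} ?_ ?_ F.fixingSubgroup ?_ ψ k hψ
    (t ^ j) s s' c ?_ ⟨hc, hcE⟩ hs ?_ hj hψs m hm a b u r (IndP_of_deg p a ha)
    (IndD_of_realCM hCMR E b hb) (IndU_of_ram p ℓ u hu) hr hrq
  · rintro g ⟨hg, N, hN⟩ x
    refine ⟨(hINER ℓ M g hg).1 x, N, ?_⟩
    rw [conj_pow, hN, mul_one, mul_inv_cancel]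
  · rintro g ⟨hg, N, hN⟩ i
    refine ⟨(hINER ℓ M g hg).2 i, N, ?_⟩
    rw [← pow_mul, mul_comm, pow_mul, hN, one_pow]
  · rwa [← IntermediateField.finrank_eq_fixingSubgroup_index]
  · refine ⟨?_, n, ?_⟩
    · rw [Subgroup.coe_pow]
      exact (hINER ℓ M _ ht).2 j
    · exact congrArg Subtype.val hjn
  · rcases hq with hq | ⟨hq, h5, hx⟩
    · exact Or.inl hq
    · refine Or.inr ⟨hq, h5, fun x hxF => ?_⟩
      obtain ⟨y, hy, hy1⟩ := hx x hxF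
      refine ⟨y ^ j, ?_, ?_⟩
      · rw [Subgroup.coe_pow, Subgroup.coe_pow, hy]
        have := conj_pow (a := x⁻¹) (b := (t : M ≃ₐ[ℚ] M)) (i := j)
        rw [inv_inv] at this
        exact this
      · rw [map_pow, hy1, one_pow]

end StarkSh
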