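import Pool.Agent.StarkSh.Stmts

/-!
# Sharpness: the group theoretic obstruction for the exponent `p`
-/

open scoped Classical
open StarkSharp

namespace StarkSh

namespace GRPAx

theorem cw_full {G : Type} [Group G] [Fintype G] (S H : Subgroup G) (ψ : H →* ℂˣ)
    (w : MulAction.orbitRel.Quotient S (G ⧸ H))
    (h : ∀ s ∈ S, (w.out : G ⧸ H).out⁻¹ * s * (w.out : G ⧸ H).out ∈ H) (s : S) :
    cw S H ψ w s = ψ ⟨(w.out : G ⧸ H).out⁻¹ * s * (w.out : G ⧸ H).out, h s s.2⟩ := by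
  unfold cw
  rw [dif_pos h]
  rfl

theorem pow_mem {G : Type} [Group G] {I : Set G} (hpow : ∀ g ∈ I, ∀ n : ℕ, g ^ n ∈ I)
    (hconj : ∀ g ∈ I, ∀ x : G, x * g * x⁻¹ ∈ I) (H : Subgroup G) (t v : H) (ht : (t : G) ∈ I)
    (j : ℕ) (a : G) : a * ((v * t ^ j * v⁻¹ : H) : G) * a⁻¹ ∈ I := by
  refine hconj _ ?_ a
  have e : ((v * t ^ j * v⁻¹ : H) : G) = (v : G) * (t : G) ^ j * (v : G)⁻¹ := by
    simp
  rw [e]
  exact hconj _ (hpow _ ht j) _

theorem psi_conj {G : Type} [Group G] (H : Subgroup G) (ψ : H →* ℂˣ) (t v : H) (j : ℕ) (a : G)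
    (x : G) (hx : x = a * ((v * t ^ j * v⁻¹ : H) : G) * a⁻¹) (h : a⁻¹ * x * a ∈ H) :
    ψ ⟨a⁻¹ * x * a, h⟩ = ψ (t ^ j) := by
  have e : (⟨a⁻¹ * x * a, h⟩ : H) = v * t ^ j * v⁻¹ := by
    apply Subtype.ext
    show a⁻¹ * x * a = ((v * t ^ j * v⁻¹ : H) : G)
    rw [hx]
    group
  rw [e, map_mul, map_mul, map_inv, mul_comm, ← mul_assoc, inv_mul_cancel, one_mul]

end GRPAx

theorem GRPA_thm : Stmt_GRPA := by
  rintro ⟨hCOS, hORDP, hCNT, hTAU, hSG, hFA, hFB, hIND, hNFULL, hCLA, hCLB, hCLU, hCLR, hEVAL⟩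
  intro p hp G _ _ D _ I hconj hpow H hidx ψ k hψ t s s' c htI hc hs' _ htq hsq m hm a b u r
    ha hb hu hr hrq heq
  have : Fact p.Prime := ⟨hp⟩
  obtain ⟨P⟩ : Nonempty (Sylow p G) := inferInstance
  have hS : IsPGroup p (P : Subgroup G) := P.isPGroup'
  obtain ⟨w₀, hw₀, hcard⟩ := hCNT p hp G P H hidx ((P : Subgroup G) →* ℂˣ)
    (fun w => (cw (P : Subgroup G) H ψ w) ^ p)
  have hfull := (mem_fullPts _ _ _).mp hw₀
  set y : G := (w₀.out : G ⧸ H).out with hy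
  set ξ : (P : Subgroup G) →* ℂˣ := cw (P : Subgroup G) H ψ w₀ with hξ
  have hξs : ∀ x : (P : Subgroup G), ξ x = ψ ⟨y⁻¹ * x * y, hfull x x.2⟩ := fun x =>
    GRPAx.cw_full (P : Subgroup G) H ψ w₀ hfull x
  obtain ⟨j, v, τ, hτ, hτq, -⟩ := hTAU p hp G P H y hfull ψ k hψ t p (Or.inl rfl) htq
  have hτI : (τ : G) ∈ I := by
    rw [hτ]
    exact GRPAx.pow_mem hpow hconj H t v htI j y
  have hξτ : (ξ τ) ^ p ≠ 1 := by
    rw [hξs, GRPAx.psi_conj H ψ t v j y τ hτ]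
    exact hτq
  obtain ⟨s₁, s₁', v₁, d, hd, hs₁, hq, -⟩ := hSG p hp G P H D y hfull ψ k hψ s s' c hc hs' p
    (Or.inl rfl) hsq
  have hξs₁ : (ξ s₁') ^ p ≠ (ξ s₁) ^ p := by
    rw [hξs, hξs]
    exact hq
  set F : ((P : Subgroup G) →* ℂˣ) → ZMod p := fun ζ => if ζ ^ p = ξ ^ p then 1 else 0 with hF
  have hgood : Good p (P : Subgroup G) F τ s₁ s₁' :=
    hFA hCOS p hp G (P : Subgroup G) hS ξ τ s₁ s₁' hξτ hξs₁
  have k1 := hCLA hIND hNFULL hCOS hORDP p hp G P F τ s₁ s₁' hgood a ha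
  have k2 := hCLB hIND hNFULL hCOS hORDP p hp G (P : Subgroup G) D hS F τ s₁ s₁' v₁ d hd hs₁
    hgood b hb
  have k3 := hCLU hIND hNFULL hCOS hORDP p hp G I hconj (P : Subgroup G) hS F τ s₁ s₁' hτI
    hgood u hu
  have k4 := hCLR p G (P : Subgroup G) F τ s₁ s₁' hgood r hr hrq
  have k5 := ((k1.add k2).add k3).add k4
  obtain ⟨n, hn, hsum⟩ := hEVAL hNFULL hCOS hORDP p hp G (P : Subgroup G) H hS F hgood.cos ψ
  have k6 := k5.sum_eq_zero (fun ζ => m * n ζ) (by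
    intro ζ
    rw [← heq, mlt_smul, hn]
    push_cast
    ring)
  have k7 : (m : ZMod p) * ∑ w ∈ fullPts (P : Subgroup G) H, F (cw (P : Subgroup G) H ψ w) = 0 := by
    rw [← hsum, Finset.mul_sum, ← k6]
    refine Finset.sum_congr rfl fun ζ _ => ?_
    push_cast
    ring
  have k8 : ∑ w ∈ fullPts (P : Subgroup G) H, F (cw (P : Subgroup G) H ψ w)
      = (((fullPts (P : Subgroup G) H).filter
        (fun w => (cw (P : Subgroup G) H ψ w) ^ p = ξ ^ p)).card : ZMod p) := by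
    rw [hF, Finset.card_filter]
    push_cast
    rfl
  rw [k8, mul_eq_zero] at k7
  rcases k7 with k7 | k7
  · exact hm ((ZMod.intCast_zmod_eq_zero_iff_dvd m p).mp k7)
  · refine hcard ((ZMod.natCast_eq_zero_iff _ p).mp ?_)
    convert k7

end StarkSh
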