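import Pool.Agent.StarkSh.Stmts

/-!
# GRPB: the group theoretic obstruction for the exponent one
-/

open scoped Classical
open StarkSharp

namespace StarkSh

namespace GRPBx

variable {G : Type} [Group G] [Fintype G]

/-- only the base point contributes -/
theorem cw_tau (P H : Subgroup G) (ψ : H →* ℂˣ) (w₀ w : MulAction.orbitRel.Quotient P (G ⧸ H))
    (hw : w ∈ fullPts P H) (hne : w ≠ w₀) (t v : H) (j : ℕ) (τ : P)
    (hτ : (τ : G) = (w₀.out : G ⧸ H).out * ((v * t ^ j * v⁻¹ : H) : G) *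
      ((w₀.out : G ⧸ H).out)⁻¹)
    (hx : ∀ x : G, x ∉ H → ∃ y : H, (y : G) = x⁻¹ * t * x ∧ ψ y = 1) :
    cw P H ψ w τ = 1 := by
  have hfull := (mem_fullPts P H w).mp hw
  have h1 : cw P H ψ w = conjChar P H ψ w.out hfull := by
    unfold cw
    rw [dif_pos hfull]
  rw [h1]
  set a : G := (w₀.out : G ⧸ H).out with ha
  set b : G := (w.out : G ⧸ H).out with hb
  have hxn : (b⁻¹ * a * v)⁻¹ ∉ H := by
    intro h
    apply hne
    have h2 : b⁻¹ * a * v ∈ H := by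
      have := H.inv_mem h
      rwa [inv_inv] at this
    have h3 : b⁻¹ * a ∈ H := by
      have := H.mul_mem h2 (H.inv_mem v.2)
      rwa [mul_inv_cancel_right] at this
    have h4 : ((b : G) : G ⧸ H) = ((a : G) : G ⧸ H) := QuotientGroup.eq.mpr h3
    rw [hb, ha, QuotientGroup.out_eq', QuotientGroup.out_eq'] at h4
    rw [← Quotient.out_eq' w, ← Quotient.out_eq' w₀]
    exact congrArg _ h4
  obtain ⟨y, hy, hψy⟩ := hx _ hxn
  have h5 : (⟨b⁻¹ * τ * b, hfull τ τ.2⟩ : H) = y ^ j := by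
    apply Subtype.ext
    have h6 : ((y ^ j : H) : G) = (b⁻¹ * a * v) * (t : G) ^ j * (b⁻¹ * a * v)⁻¹ := by
      rw [Subgroup.coe_pow, hy, inv_inv, conj_pow]
    rw [h6]
    show b⁻¹ * (τ : G) * b = _
    rw [hτ]
    simp only [Subgroup.coe_mul, Subgroup.coe_pow, Subgroup.coe_inv]
    group
  show ψ ⟨b⁻¹ * τ * b, hfull τ τ.2⟩ = 1
  rw [h5, map_pow, hψy, one_pow]

end GRPBx

theorem GRPB_thm : Stmt_GRPB := by
  rintro ⟨COS, ORDP, CNT, TAU, SG, -, FB, IND, NFULL, CLA, CLB, CLU, CLR, EVAL⟩ p hp h5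
  intro G _ _ D _ I hIc hIp H hH ψ k hψk t s s' c htI hcD hs' hq hψt hψs m hm a b u r ha hb hu hr
    hrat heq
  have hx : ∀ x : G, x ∉ H → ∃ y : H, (y : G) = x⁻¹ * t * x ∧ ψ y = 1 := by
    rcases hq with hq | hq
    · omega
    · exact hq.2.2
  obtain ⟨P⟩ : Nonempty (Sylow p G) := inferInstance
  obtain ⟨w₀, hw₀, -⟩ := CNT p hp G P H hH Unit (fun _ => ())
  have hfull₀ := (mem_fullPts (P : Subgroup G) H w₀).mp hw₀
  obtain ⟨j, v, τ, hτ, hτ1, hτp⟩ := TAU p hp G P H _ hfull₀ ψ k hψk t 1 (Or.inr rfl) hψt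
  obtain ⟨s₁, s₁', v', d, hd, hs₁', hne, hpe⟩ :=
    SG p hp G P H D _ hfull₀ ψ k hψk s s' c hcD hs' 1 (Or.inr rfl) hψs
  set ξ : (P : Subgroup G) →* ℂˣ := conjChar P H ψ w₀.out hfull₀ with hξ
  have hξτ : ξ τ = ψ (t ^ j) := by
    have h1 : (⟨(w₀.out : G ⧸ H).out⁻¹ * τ * (w₀.out : G ⧸ H).out, hfull₀ τ τ.2⟩ : H) =
        v * t ^ j * v⁻¹ := by
      apply Subtype.ext
      show (w₀.out : G ⧸ H).out⁻¹ * (τ : G) * (w₀.out : G ⧸ H).out = _
      rw [hτ]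
      group
    show ψ ⟨(w₀.out : G ⧸ H).out⁻¹ * τ * (w₀.out : G ⧸ H).out, hfull₀ τ τ.2⟩ = _
    rw [h1, map_mul, map_mul, map_inv, mul_comm, ← mul_assoc, inv_mul_cancel, one_mul]
  rw [pow_one] at hτ1
  rw [pow_one, pow_one] at hne
  obtain ⟨F, hF, hFξ⟩ := FB p hp h5 G P P.isPGroup' ξ τ s₁ s₁'
    (by rw [hξτ]; exact hτp rfl) (by rw [hξτ]; exact hτ1) (hpe rfl) hne
  have hτI : (τ : G) ∈ I := by
    rw [hτ]
    refine hIc _ ?_ _
    rw [Subgroup.coe_mul, Subgroup.coe_mul, Subgroup.coe_inv, Subgroup.coe_pow]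
    exact hIc _ (hIp _ htI j) _
  have ka : Killed p (P : Subgroup G) F a :=
    CLA IND NFULL COS ORDP p hp G P F τ s₁ s₁' hF a ha
  have kb : Killed p (P : Subgroup G) F b :=
    CLB IND NFULL COS ORDP p hp G P D P.isPGroup' F τ s₁ s₁' v' d hd hs₁' hF b hb
  have ku : Killed p (P : Subgroup G) F u :=
    CLU IND NFULL COS ORDP p hp G I hIc P P.isPGroup' F τ s₁ s₁' hτI hF u hu
  have kr : Killed p (P : Subgroup G) F r := CLR p G P F τ s₁ s₁' hF r hr hrat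
  have ksum : Killed p (P : Subgroup G) F (a + b + u + r) := ((ka.add kb).add ku).add kr
  rw [← heq] at ksum
  obtain ⟨n, hn, hsum⟩ := EVAL NFULL COS ORDP p hp G P H P.isPGroup' F hF.cos ψ
  have h1 := ksum.sum_eq_zero (fun ζ => m * n ζ) (fun ζ => by
    rw [mlt_smul, hn]
    push_cast
    ring)
  have h2 : (m : ZMod p) * ∑ ζ : (P : Subgroup G) →* ℂˣ, F ζ * (n ζ : ZMod p) = 0 := by
    rw [← h1, Finset.mul_sum]
    refine Finset.sum_congr rfl fun ζ _ => ?_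
    push_cast
    ring
  have : Fact p.Prime := ⟨hp⟩
  have hm0 : (m : ZMod p) ≠ 0 := by
    intro h
    exact hm ((ZMod.intCast_zmod_eq_zero_iff_dvd m p).mp h)
  rcases mul_eq_zero.mp h2 with h3 | h3
  · exact hm0 h3
  · rw [hsum, Finset.sum_eq_single_of_mem w₀ hw₀] at h3
    · apply hFξ
      have h4 : cw (P : Subgroup G) H ψ w₀ = ξ := by
        unfold cw
        rw [dif_pos hfull₀]
      rw [← h4]
      exact h3
    · intro w hw hne'
      exact hF.unr _ (GRPBx.cw_tau _ H ψ w₀ w hw hne' t v j τ hτ hx)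

end StarkSh
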