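import Pool.Agent.StarkSh.Stmts

/-!
# Sharpness: multiplicities of an induced character
-/

open scoped Classical
open StarkSharp

namespace StarkSh

theorem IND_thm : Stmt_IND := by
  intro p G _ _ S H F V _ _ _ ρ h
  choose n hn using fun (y : G ⧸ H) (ζ : S →* ℂˣ) => int_Iw S H ρ ζ y
  refine ⟨fun ζ => ∑ w : MulAction.orbitRel.Quotient S (G ⧸ H), n w.out ζ, ?_, ?_⟩
  · intro ζ
    rw [mlt_ind S (fun g k => Representation.char_conj ρ g k) ζ]
    push_cast
    exact Finset.sum_congr rfl fun w _ => hn _ _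
  · push_cast
    simp_rw [Finset.mul_sum]
    rw [Finset.sum_comm]
    exact Finset.sum_eq_zero fun w _ => h w.out (n w.out) (hn w.out)

end StarkSh
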