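import Pool.Agent.StarkSh.Stmts

/-!
# INER: inertia groups are conjugated
-/

open scoped Classical
open StarkSharp NumberField

namespace StarkSh

namespace INERx

variable {M : Type} [Field M] [NumberField M]

/-- the automorphism of the ring of integers -/
noncomputable def ri (x : M ≃ₐ[ℚ] M) : 𝓞 M ≃+* 𝓞 M :=
  RingOfIntegers.mapRingEquiv (x : M ≃+* M)

theorem coe_ri (x : M ≃ₐ[ℚ] M) (z : 𝓞 M) : ((ri x z : 𝓞 M) : M) = x (z : M) := rfl

theorem pow_mem (g : M ≃ₐ[ℚ] M) (P : Ideal (𝓞 M))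
    (h : ∀ x y : 𝓞 M, (y : M) = g (x : M) → y - x ∈ P) (n : ℕ) :
    ∀ x y : 𝓞 M, (y : M) = (g ^ n) (x : M) → y - x ∈ P := by
  induction n with
  | zero =>
    intro x y hxy
    have : y = x := by
      apply RingOfIntegers.coe_injective
      simpa using hxy
    rw [this, sub_self]
    exact P.zero_mem
  | succ n ih =>
    intro x y hxy
    have h1 := ih x (ri (g ^ n) x) rfl
    have h2 := h (ri (g ^ n) x) y (by
      rw [hxy, pow_succ', AlgEquiv.mul_apply, coe_ri])
    have h3 := P.add_mem h2 h1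
    rwa [sub_add_sub_cancel] at h3

end INERx

open INERx in
theorem INER_thm : Stmt_INER := by
  intro ℓ M _ _ g hg
  obtain ⟨P, hP, hℓ, h⟩ := hg
  refine ⟨fun x => ?_, fun n => ⟨P, hP, hℓ, pow_mem g P h n⟩⟩
  refine ⟨P.comap (ri x⁻¹), Ideal.comap_isPrime _ _, ?_, ?_⟩
  · rw [Ideal.mem_comap, map_natCast]
    exact hℓ
  · intro u v huv
    rw [Ideal.mem_comap, map_sub]
    apply h
    rw [coe_ri, coe_ri, huv]
    change (x⁻¹ * (x * g * x⁻¹)) (u : M) = (g * x⁻¹) (u : M)
    congr 1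
    group

end StarkSh
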