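import Mathlib
import Pool.Agent.StarkSh.Stmts

/-!
# Points which are not fixed
-/

open scoped Classical
open StarkSharp

namespace StarkSh

theorem NFULL_thm : Stmt_NFULL := by
  intro hcos hord p hp G _ _ S H hS F hF V _ _ _ ρ y hy n hn
  obtain ⟨δ, hδ1, hδp, hδ⟩ := hord p hp S hS _ hy
  refine hcos p hp (S →* ℂˣ) F (fun ζ => (n ζ : ZMod p)) δ hδp hδ1 ?_ ?_
  · intro ζ
    have h1 : Iw S H ρ.character (ζ * δ) y = Iw S H ρ.character ζ y := by
      apply Iw_congr
      intro u hu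
      rw [MonoidHom.mul_apply, hδ u hu, mul_one]
    rw [hn, hn] at h1
    have h2 : n (ζ * δ) = n ζ := by exact_mod_cast h1
    rw [h2]
  · intro ζ
    exact hF ζ δ hδp hδ1

end StarkSh
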