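import Pool.Agent.StarkSh.Stmts

/-!
# Sharpness: ORDP, linear characters of order `p` which kill a proper subgroup of a `p`-group
-/

open scoped Classical

namespace StarkSh

namespace ORDPx

theorem exists_unit (p : ℕ) (hp : p.Prime) : ∃ z : ℂˣ, orderOf z = p := by
  have h := Complex.isPrimitiveRoot_exp p hp.ne_zero
  refine ⟨Units.mk0 (Complex.exp (2 * Real.pi * Complex.I / p)) (Complex.exp_ne_zero _), ?_⟩
  rw [← orderOf_units, Units.val_mk0]
  exact h.eq_orderOf.symm

theorem quot {p : ℕ} (hp : p.Prime) {S : Type} [Group S] [Finite S] (hS : IsPGroup p S)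
    (V : Subgroup S) (hV : IsCoatom V) [V.Normal] :
    ∃ x : S ⧸ V, orderOf x = p ∧ ∀ y, y ∈ Subgroup.zpowers x := by
  have : Fact p.Prime := ⟨hp⟩
  have h1 : IsPGroup p (S ⧸ V) := hS.to_quotient V
  have h2 : Nontrivial (S ⧸ V) := by
    rw [← not_subsingleton_iff_nontrivial]
    intro h
    exact hV.1 (QuotientGroup.subgroup_eq_top_of_subsingleton V h)
  obtain ⟨n, hn⟩ := IsPGroup.iff_card.mp h1
  have hn0 : n ≠ 0 := by
    rintro rfl
    rw [pow_zero] at hn
    have := Finite.one_lt_card (α := S ⧸ V)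
    omega
  have h2dvd : p ∣ Nat.card (S ⧸ V) := by
    rw [hn]
    exact dvd_pow_self p hn0
  obtain ⟨x, hx⟩ := exists_prime_orderOf_dvd_card' p h2dvd
  have hx1 : x ≠ 1 := by
    rintro rfl
    rw [orderOf_one] at hx
    exact hp.one_lt.ne hx
  have hlt : V < (Subgroup.zpowers x).comap (QuotientGroup.mk' V) := by
    rw [SetLike.lt_iff_le_and_exists]
    constructor
    · intro v hv
      rw [Subgroup.mem_comap, QuotientGroup.mk'_apply, (QuotientGroup.eq_one_iff v).mpr hv]
      exact Subgroup.one_mem _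
    · obtain ⟨y, rfl⟩ := QuotientGroup.mk'_surjective V x
      refine ⟨y, ?_, ?_⟩
      · rw [Subgroup.mem_comap]
        exact Subgroup.mem_zpowers _
      · intro hy
        exact hx1 ((QuotientGroup.eq_one_iff y).mpr hy)
  have htop := hV.2 _ hlt
  refine ⟨x, hx, fun z => ?_⟩
  obtain ⟨y, rfl⟩ := QuotientGroup.mk'_surjective V z
  have : y ∈ (Subgroup.zpowers x).comap (QuotientGroup.mk' V) := by
    rw [htop]
    exact Subgroup.mem_top _
  exact this

end ORDPx

open ORDPx

/-- ORDP. -/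
theorem ORDP_thm : Stmt_ORDP := by
  intro p hp S _ _ hS U hU
  have : Fact p.Prime := ⟨hp⟩
  obtain ⟨V, hV, hUV⟩ := (eq_top_or_exists_le_coatom U).resolve_left hU
  have hnil : Group.IsNilpotent S := hS.isNilpotent
  have hnorm : V.Normal := Subgroup.NormalizerCondition.normal_of_coatom V
    Group.normalizerCondition_of_isNilpotent hV
  obtain ⟨x, hx, hgen⟩ := quot hp hS V hV
  obtain ⟨z, hz⟩ := exists_unit p hp
  have hdvd : orderOf z ∣ orderOf x := by
    rw [hz, hx]
  obtain ⟨y, hy⟩ := QuotientGroup.mk'_surjective V x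
  refine ⟨(monoidHomOfForallMemZpowers hgen hdvd).comp (QuotientGroup.mk' V), ?_, ?_, ?_⟩
  · intro h
    have h1 := congrArg (fun f : S →* ℂˣ => f y) h
    simp only [MonoidHom.comp_apply, MonoidHom.one_apply] at h1
    rw [hy, monoidHomOfForallMemZpowers_apply_gen] at h1
    rw [h1, orderOf_one] at hz
    exact hp.one_lt.ne hz
  · ext s
    rw [MonoidHom.pow_apply, ← map_pow, MonoidHom.comp_apply, map_pow]
    have h1 : (QuotientGroup.mk' V s) ^ p = 1 := by
      obtain ⟨k, hk⟩ := Subgroup.mem_zpowers_iff.mp (hgen (QuotientGroup.mk' V s))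
      rw [← hk, ← zpow_natCast, ← zpow_mul, mul_comm, zpow_mul, zpow_natCast, ← hx,
        pow_orderOf_eq_one, one_zpow]
    rw [h1, map_one]
    rfl
  · intro u hu
    rw [MonoidHom.comp_apply, QuotientGroup.mk'_apply, (QuotientGroup.eq_one_iff u).mpr (hUV hu),
      map_one]

end StarkSh
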