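import Pool.Agent.StarkSh.Stmts

/-!
# SG: a pair of conjugate elements of `H` moved into the Sylow subgroup
-/

open scoped Classical Pointwise
open StarkSharp

namespace StarkSh.SGx

variable {G : Type} [Group G] [Fintype G]

/-- the exponent -/
theorem exists_exp {p : ℕ} (hp : p.Prime) {A : Type} [Group A] [Finite A] (s : A) (r : ℂˣ)
    (k : ℕ) (hr : r ^ (p ^ k) = 1) (q : ℕ) (hq : q = p ∨ q = 1) (hrq : r ^ q ≠ 1) :
    ∃ j e : ℕ, (s ^ j) ^ (p ^ e) = 1 ∧ (r ^ j) ^ q ≠ 1 ∧ (q = 1 → (r ^ j) ^ p = 1) := by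
  obtain ⟨e, m, hm, hem⟩ := Nat.exists_eq_pow_mul_and_not_dvd (orderOf_pos s).ne' p hp.ne_one
  have hcop : ∀ i, Nat.Coprime m (p ^ i) := fun i =>
    (((Nat.Prime.coprime_iff_not_dvd hp).mpr hm).symm).pow_right i
  have hsm : (s ^ m) ^ (p ^ e) = 1 := by
    rw [← pow_mul, mul_comm, ← hem, pow_orderOf_eq_one]
  have key : ∀ x : ℂˣ, x ^ (p ^ k) = 1 → x ^ m = 1 → x = 1 := by
    intro x h1 h2
    have h5 : orderOf x ∣ Nat.gcd m (p ^ k) :=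
      Nat.dvd_gcd (orderOf_dvd_of_pow_eq_one h2) (orderOf_dvd_of_pow_eq_one h1)
    rw [hcop k, Nat.dvd_one, orderOf_eq_one_iff] at h5
    exact h5
  rcases hq with rfl | rfl
  · refine ⟨m, e, hsm, ?_, ?_⟩
    · intro h
      apply hrq
      apply key
      · rw [← pow_mul, mul_comm, pow_mul, hr, one_pow]
      · rw [← pow_mul, mul_comm, pow_mul]
        exact h
    · intro h
      exact absurd h hp.ne_one
  · rw [pow_one] at hrq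
    -- the least `i` with `r ^ (p ^ i) = 1`
    have hex : ∃ i, r ^ (p ^ i) = 1 := ⟨k, hr⟩
    have h1 := Nat.find_spec hex
    have h2 : Nat.find hex ≠ 0 := by
      intro h0
      rw [h0, pow_zero, pow_one] at h1
      exact hrq h1
    obtain ⟨i, hi⟩ := Nat.exists_eq_succ_of_ne_zero h2
    have h3 : r ^ (p ^ i) ≠ 1 := Nat.find_min hex (by omega)
    rw [hi, Nat.succ_eq_add_one] at h1
    refine ⟨m * p ^ i, e, ?_, ?_, ?_⟩
    · rw [pow_mul, ← pow_mul, mul_comm (p ^ i), pow_mul, hsm, one_pow]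
    · rw [pow_one]
      intro h
      apply h3
      apply key
      · rw [← pow_mul, mul_comm, pow_mul, hr, one_pow]
      · rw [← pow_mul, mul_comm]
        exact h
    · intro _
      rw [← pow_mul, mul_assoc, ← pow_succ, mul_comm, pow_mul, h1, one_pow]

/-- an element of `p`-power order of a subgroup `K` which contains `a⁻¹ P a` is conjugate in `K`
to an element of `a⁻¹ P a` -/
theorem exists_conj {p : ℕ} (hp : p.Prime) (P : Sylow p G) (K : Subgroup G) (a : G)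
    (h : ∀ x ∈ (P : Subgroup G), a⁻¹ * x * a ∈ K) (z : G) (hz : z ∈ K) (e : ℕ)
    (hze : z ^ (p ^ e) = 1) : ∃ y ∈ K, a * (y * z * y⁻¹) * a⁻¹ ∈ (P : Subgroup G) := by
  have : Fact p.Prime := ⟨hp⟩
  set P' : Sylow p G := (a⁻¹ : G) • P with hP'
  have hle : (P' : Subgroup G) ≤ K := by
    intro x hx
    rw [hP', Sylow.coe_subgroup_smul, Subgroup.mem_pointwise_smul_iff_inv_smul_mem] at hx
    have h2 := h _ hx
    have e : a⁻¹ * ((MulAut.conj a⁻¹)⁻¹ • x) * a = x := by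
      simp [MulAut.smul_def, mul_assoc]
    rwa [e] at h2
  set z₁ : K := ⟨z, hz⟩ with hz₁
  have hz1 : z₁ ^ (p ^ e) = 1 := Subtype.ext (by simpa using hze)
  have hpg : IsPGroup p (Subgroup.zpowers z₁) := by
    rw [IsPGroup.iff_card]
    have h6 : Nat.card (Subgroup.zpowers z₁) ∣ p ^ e := by
      rw [Nat.card_zpowers]
      exact orderOf_dvd_of_pow_eq_one hz1
    obtain ⟨j, -, hj⟩ := (Nat.dvd_prime_pow hp).mp h6
    exact ⟨j, hj⟩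
  obtain ⟨Q, hQ⟩ := hpg.exists_le_sylow
  obtain ⟨x, hx⟩ := MulAction.exists_smul_eq K Q (P'.subtype hle)
  have hmem : x * z₁ * x⁻¹ ∈ (P'.subtype hle : Subgroup K) := by
    rw [← hx, Sylow.coe_subgroup_smul, Subgroup.mem_pointwise_smul_iff_inv_smul_mem]
    have e : (MulAut.conj x)⁻¹ • (x * z₁ * x⁻¹) = z₁ := by
      simp [MulAut.smul_def, mul_assoc]
    rw [e]
    exact hQ (Subgroup.mem_zpowers z₁)
  refine ⟨x, x.2, ?_⟩
  have h7 : ((x * z₁ * x⁻¹ : K) : G) ∈ (P' : Subgroup G) := by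
    have := hmem
    rw [Sylow.coe_subtype, Subgroup.mem_subgroupOf] at this
    exact this
  rw [hP', Sylow.coe_subgroup_smul, Subgroup.mem_pointwise_smul_iff_inv_smul_mem] at h7
  have e2 : (MulAut.conj a⁻¹)⁻¹ • ((x * z₁ * x⁻¹ : K) : G) = a * (x * z * (x : G)⁻¹) * a⁻¹ := by
    simp [MulAut.smul_def, mul_assoc, hz₁]
  rwa [e2] at h7

end StarkSh.SGx

namespace StarkSh

open SGx

theorem SG_thm : Stmt_SG := by
  intro p hp G _ _ P H D hD a h ψ k hψ s s' c hc hs q hq hne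
  -- the quotient of the values
  set r : ℂˣ := ψ s' / ψ s with hr
  have hψk : ∀ x : H, (ψ x) ^ (p ^ k) = 1 := by
    intro x
    rw [← MonoidHom.pow_apply, hψ]
    rfl
  have hrk : r ^ (p ^ k) = 1 := by rw [hr, div_pow, hψk, hψk, div_one]
  have hrq : r ^ q ≠ 1 := by
    rw [hr, div_pow]
    intro h0
    exact hne (div_eq_one.mp h0)
  obtain ⟨j, e, hse, hj1, hj2⟩ := exists_exp hp s r k hrk q hq hrq
  -- first conjugation
  have hσ : ((s ^ j : H) : G) ^ (p ^ e) = 1 := by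
    have := congrArg (Subtype.val) hse
    simpa using this
  obtain ⟨u, huH, hu⟩ := exists_conj hp P H a h ((s ^ j : H) : G) (s ^ j : H).2 e hσ
  set x : G := u * ((s ^ j : H) : G) * u⁻¹ with hx
  set c₁ : G := u * c * u⁻¹ with hc₁
  have hc₁D : c₁ ∈ D := hD.conj_mem c hc u
  have hs'j : ((s' ^ j : H) : G) = c * ((s ^ j : H) : G) * c⁻¹ := by
    rw [Subgroup.coe_pow, Subgroup.coe_pow, hs, conj_pow]
  have hzz : c₁ * x * c₁⁻¹ = u * ((s' ^ j : H) : G) * u⁻¹ := by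
    rw [hs'j, hc₁, hx]
    group
  have hxH : x ∈ H := H.mul_mem (H.mul_mem huH (s ^ j : H).2) (H.inv_mem huH)
  have hzH : c₁ * x * c₁⁻¹ ∈ H := by
    rw [hzz]
    exact H.mul_mem (H.mul_mem huH (s' ^ j : H).2) (H.inv_mem huH)
  -- the subgroup `S D`
  set S : Subgroup G := ((MulAut.conj a⁻¹) • (P : Subgroup G)) with hS
  have hSmem : ∀ g : G, g ∈ S ↔ a * g * a⁻¹ ∈ (P : Subgroup G) := by
    intro g
    rw [hS, Subgroup.mem_pointwise_smul_iff_inv_smul_mem]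
    have : (MulAut.conj a⁻¹)⁻¹ • g = a * g * a⁻¹ := by
      simp [MulAut.smul_def]
    rw [this]
  have hxS : x ∈ S := (hSmem x).mpr hu
  have hPK : ∀ g ∈ (P : Subgroup G), a⁻¹ * g * a ∈ H ⊓ (S ⊔ D) := by
    intro g hg
    refine ⟨h g hg, Subgroup.mem_sup_left ((hSmem _).mpr ?_)⟩
    have : a * (a⁻¹ * g * a) * a⁻¹ = g := by group
    rwa [this]
  have hzK : c₁ * x * c₁⁻¹ ∈ H ⊓ (S ⊔ D) := by
    refine ⟨hzH, ?_⟩
    exact (S ⊔ D).mul_mem ((S ⊔ D).mul_mem (Subgroup.mem_sup_right hc₁D)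
      (Subgroup.mem_sup_left hxS)) ((S ⊔ D).inv_mem (Subgroup.mem_sup_right hc₁D))
  have hze : (c₁ * x * c₁⁻¹) ^ (p ^ e) = 1 := by
    rw [conj_pow, hx, conj_pow, hσ]
    group
  obtain ⟨y, hyK, hy⟩ := exists_conj hp P (H ⊓ (S ⊔ D)) a hPK _ hzK e hze
  obtain ⟨σ₁, hσ₁, d₁, hd₁, hyd⟩ := (Subgroup.mem_sup_of_normal_right (s := S) (t := D)).mp hyK.2
  have hψ1 : ψ ⟨x, hxH⟩ = (ψ s) ^ j := by
    have : (⟨x, hxH⟩ : H) = ⟨u, huH⟩ * (s ^ j) * (⟨u, huH⟩ : H)⁻¹ := Subtype.ext rfl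
    rw [this, map_mul, map_mul, map_inv, map_pow, mul_comm (ψ ⟨u, huH⟩), mul_inv_cancel_right]
  have hyzH : y * (c₁ * x * c₁⁻¹) * y⁻¹ ∈ H :=
    H.mul_mem (H.mul_mem hyK.1 hzH) (H.inv_mem hyK.1)
  have hψ2 : ψ ⟨y * (c₁ * x * c₁⁻¹) * y⁻¹, hyzH⟩ = (ψ s') ^ j := by
    have : (⟨y * (c₁ * x * c₁⁻¹) * y⁻¹, hyzH⟩ : H)
        = ⟨y, hyK.1⟩ * (⟨u, huH⟩ * (s' ^ j) * (⟨u, huH⟩ : H)⁻¹) * (⟨y, hyK.1⟩ : H)⁻¹ := by
      refine Subtype.ext ?_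
      show y * (c₁ * x * c₁⁻¹) * y⁻¹ = y * (u * ((s' ^ j : H) : G) * u⁻¹) * y⁻¹
      rw [hzz]
    rw [this, map_mul, map_mul, map_mul, map_mul, map_inv, map_inv, map_pow,
      mul_comm (ψ ⟨u, huH⟩), mul_inv_cancel_right, mul_comm (ψ ⟨y, hyK.1⟩), mul_inv_cancel_right]
  have hval1 : ψ ⟨a⁻¹ * (a * x * a⁻¹) * a, h _ hu⟩ = (ψ s) ^ j := by
    rw [← hψ1]
    congr 1
    exact Subtype.ext (by group)
  have hval2 : ψ ⟨a⁻¹ * (a * (y * (c₁ * x * c₁⁻¹) * y⁻¹) * a⁻¹) * a, h _ hy⟩ = (ψ s') ^ j := by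
    rw [← hψ2]
    congr 1
    exact Subtype.ext (by group)
  have hrj : r ^ j = (ψ s') ^ j / (ψ s) ^ j := by rw [hr, div_pow]
  refine ⟨⟨a * x * a⁻¹, hu⟩, ⟨a * (y * (c₁ * x * c₁⁻¹) * y⁻¹) * a⁻¹, hy⟩,
    ⟨a * σ₁ * a⁻¹, (hSmem σ₁).mp hσ₁⟩, a * (d₁ * c₁) * a⁻¹,
    hD.conj_mem _ (D.mul_mem hd₁ hc₁D) a, ?_, ?_, ?_⟩
  · show a * (y * (c₁ * x * c₁⁻¹) * y⁻¹) * a⁻¹
      = (a * σ₁ * a⁻¹ * (a * (d₁ * c₁) * a⁻¹)) * (a * x * a⁻¹)
        * (a * σ₁ * a⁻¹ * (a * (d₁ * c₁) * a⁻¹))⁻¹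
    rw [← hyd]
    group
  · show (ψ ⟨a⁻¹ * (a * (y * (c₁ * x * c₁⁻¹) * y⁻¹) * a⁻¹) * a, h _ hy⟩) ^ q
      ≠ (ψ ⟨a⁻¹ * (a * x * a⁻¹) * a, h _ hu⟩) ^ q
    rw [hval1, hval2]
    intro h0
    apply hj1
    rw [hrj, div_pow, h0, div_self']
  · intro hq1
    show (ψ ⟨a⁻¹ * (a * (y * (c₁ * x * c₁⁻¹) * y⁻¹) * a⁻¹) * a, h _ hy⟩) ^ p
      = (ψ ⟨a⁻¹ * (a * x * a⁻¹) * a, h _ hu⟩) ^ p
    rw [hval1, hval2]
    have h0 := hj2 hq1
    rw [hrj, div_pow] at h0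
    exact div_eq_one.mp h0

end StarkSh
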