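import Pool.Agent.StarkSh.Stmts

/-!
# Sharpness, module TAU

An element `t` of a subgroup `H` which contains `a⁻¹ P a` (with `P` a Sylow subgroup of `G`) has a
power which is conjugate in `H` to an element of `a⁻¹ P a` and on which `ψ` is still not trivial.
-/

open scoped Classical
open StarkSharp NumberField

namespace StarkSh
namespace TAUx

/-- The power: `j` such that `t ^ j` has `p`-power order. -/
theorem exists_power {p : ℕ} (hp : p.Prime) {H : Type} [Group H] [Finite H] (ψ : H →* ℂˣ) (k : ℕ)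
    (hψ : ψ ^ (p ^ k) = 1) (t : H) (q : ℕ) (hq : q = p ∨ q = 1) (ht : (ψ t) ^ q ≠ 1) :
    ∃ j : ℕ, (∃ e : ℕ, (t ^ j) ^ (p ^ e) = 1) ∧ (ψ (t ^ j)) ^ q ≠ 1 ∧
      (q = 1 → (ψ (t ^ j)) ^ p = 1) := by
  have hψt : (ψ t) ^ (p ^ k) = 1 := by
    rw [← MonoidHom.pow_apply, hψ]
    rfl
  -- the part of the order which is prime to `p`
  obtain ⟨m, hm, e, hme⟩ : ∃ m : ℕ, Nat.Coprime m p ∧ ∃ e : ℕ, (t ^ m) ^ (p ^ e) = 1 := by
    obtain ⟨e, m, hm, hem⟩ := Nat.exists_eq_pow_mul_and_not_dvd (orderOf_pos t).ne' p hp.ne_one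
    refine ⟨m, ((Nat.Prime.coprime_iff_not_dvd hp).mpr hm).symm, e, ?_⟩
    rw [← pow_mul, mul_comm, ← hem, pow_orderOf_eq_one]
  -- `m`-th powers are injective on elements of `p`-power order
  have hinj : ∀ z : ℂˣ, z ^ (p ^ k) = 1 → z ^ m = 1 → z = 1 := by
    intro z h1 h2
    have h4 : Nat.Coprime m (p ^ k) := hm.pow_right k
    have h5 : orderOf z ∣ Nat.gcd m (p ^ k) :=
      Nat.dvd_gcd (orderOf_dvd_of_pow_eq_one h2) (orderOf_dvd_of_pow_eq_one h1)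
    rw [h4, Nat.dvd_one, orderOf_eq_one_iff] at h5
    exact h5
  have hmt : (ψ (t ^ m)) ^ q ≠ 1 := by
    intro h2
    refine ht (hinj _ ?_ ?_)
    · rw [← pow_mul, mul_comm, pow_mul, hψt, one_pow]
    · rw [← h2, map_pow, ← pow_mul, ← pow_mul, mul_comm]
  rcases hq with hq | hq
  · refine ⟨m, ⟨e, hme⟩, hmt, ?_⟩
    intro h1
    exact absurd (hq.symm.trans h1) hp.ne_one
  · subst hq
    rw [pow_one] at hmt
    -- choose the last power which is not trivial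
    have hex : ∃ i, (ψ (t ^ m)) ^ (p ^ i) = 1 := by
      refine ⟨k, ?_⟩
      rw [map_pow, ← pow_mul, mul_comm, pow_mul, hψt, one_pow]
    have h1 := Nat.find_spec hex
    have h2 : Nat.find hex ≠ 0 := by
      intro h0
      rw [h0, pow_zero, pow_one] at h1
      exact hmt h1
    obtain ⟨i, hi⟩ := Nat.exists_eq_succ_of_ne_zero h2
    have h3 : (ψ (t ^ m)) ^ (p ^ i) ≠ 1 := Nat.find_min hex (by omega)
    rw [hi, Nat.succ_eq_add_one, pow_succ, pow_mul] at h1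
    have hpow : ψ (t ^ (m * p ^ i)) = (ψ (t ^ m)) ^ (p ^ i) := by
      rw [pow_mul, map_pow]
    refine ⟨m * p ^ i, ⟨e, ?_⟩, ?_, ?_⟩
    · rw [pow_mul, ← pow_mul, mul_comm, pow_mul, hme, one_pow]
    · rw [pow_one, hpow]
      exact h3
    · intro _
      rw [hpow]
      exact h1

end TAUx

theorem TAU_thm : Stmt_TAU := by
  intro p hp G _ _ P H a h ψ k hψ t q hq ht
  have : Fact p.Prime := ⟨hp⟩
  obtain ⟨j, ⟨e, he⟩, hj, hj1⟩ := TAUx.exists_power hp ψ k hψ t q hq ht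
  set h₁ : H := t ^ j with hh₁
  -- Sylow subgroups of `H`
  set P' : Sylow p G := (a⁻¹ : G) • P with hP'
  have hle : (P' : Subgroup G) ≤ H := by
    intro x hx
    rw [hP', Sylow.coe_subgroup_smul, Subgroup.mem_pointwise_smul_iff_inv_smul_mem] at hx
    have h2 := h _ hx
    have e : a⁻¹ * ((MulAut.conj a⁻¹)⁻¹ • x) * a = x := by
      simp [MulAut.smul_def, mul_assoc]
    rwa [e] at h2
  have hpg : IsPGroup p (Subgroup.zpowers h₁) := by
    rw [IsPGroup.iff_card]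
    have h6 : Nat.card (Subgroup.zpowers h₁) ∣ p ^ e := by
      rw [Nat.card_zpowers]
      exact orderOf_dvd_of_pow_eq_one he
    obtain ⟨j, -, hj⟩ := (Nat.dvd_prime_pow hp).mp h6
    exact ⟨j, hj⟩
  obtain ⟨Q, hQ⟩ := hpg.exists_le_sylow
  obtain ⟨x, hx⟩ := MulAction.exists_smul_eq H Q (P'.subtype hle)
  have hmem : x * h₁ * x⁻¹ ∈ (P'.subtype hle : Subgroup H) := by
    rw [← hx, Sylow.coe_subgroup_smul, Subgroup.mem_pointwise_smul_iff_inv_smul_mem]
    have h7 : h₁ ∈ (Q : Subgroup H) := hQ (Subgroup.mem_zpowers h₁)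
    have e1 : (MulAut.conj x)⁻¹ • (x * h₁ * x⁻¹) = h₁ := by
      simp [MulAut.smul_def, mul_assoc]
    rwa [e1]
  have hmem2 : ((x * h₁ * x⁻¹ : H) : G) ∈ (P' : Subgroup G) := by
    exact hmem
  have hmem3 : a * ((x * h₁ * x⁻¹ : H) : G) * a⁻¹ ∈ (P : Subgroup G) := by
    rw [hP', Sylow.coe_subgroup_smul, Subgroup.mem_pointwise_smul_iff_inv_smul_mem] at hmem2
    have e2 : (MulAut.conj a⁻¹)⁻¹ • ((x * h₁ * x⁻¹ : H) : G) =
        a * ((x * h₁ * x⁻¹ : H) : G) * a⁻¹ := by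
      simp [MulAut.smul_def, mul_assoc]
    rwa [e2] at hmem2
  exact ⟨j, x, ⟨_, hmem3⟩, rfl, hj, hj1⟩

end StarkSh
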