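import Pool.Agent.StarkSh.Final
import Pool.Agent.StarkSh.COS
import Pool.Agent.StarkSh.ORDP
import Pool.Agent.StarkSh.CNT
import Pool.Agent.StarkSh.TAU
import Pool.Agent.StarkSh.SG
import Pool.Agent.StarkSh.FA
import Pool.Agent.StarkSh.FB
import Pool.Agent.StarkSh.IND
import Pool.Agent.StarkSh.NFULL
import Pool.Agent.StarkSh.CLA
import Pool.Agent.StarkSh.CLB
import Pool.Agent.StarkSh.CLU
import Pool.Agent.StarkSh.CLR
import Pool.Agent.StarkSh.EVAL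
import Pool.Agent.StarkSh.GRPA
import Pool.Agent.StarkSh.GRPB
import Pool.Agent.StarkSh.INER
import Pool.Agent.StarkSh.CMR

/-!
# Sharpness: the theorem
-/

open StarkSharp

namespace StarkSh

theorem base : Stmt_BASE :=
  ⟨COS_thm, ORDP_thm, CNT_thm, TAU_thm, SG_thm, FA_thm, FB_thm, IND_thm, NFULL_thm, CLA_thm,
    CLB_thm, CLU_thm, CLR_thm, EVAL_thm⟩

theorem sharp (p : ℕ) (hp : p.Prime) (ℓ : ℕ) {M : Type} [Field M] [NumberField M] [IsGalois ℚ M]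
    (F E : IntermediateField ℚ M) [IsGalois ℚ E]
    (hF : ¬ p ∣ Module.finrank ℚ F) (ψ : F.fixingSubgroup →* ℂˣ) (k : ℕ)
    (hψ : ψ ^ (p ^ k) = 1) (q : ℕ) (t s s' : F.fixingSubgroup) (c : M ≃ₐ[ℚ] M)
    (hq : q = p ∨ (q = 1 ∧ 5 ≤ p ∧ ∀ x : M ≃ₐ[ℚ] M, x ∉ F.fixingSubgroup →
      ∃ y : F.fixingSubgroup, (y : M ≃ₐ[ℚ] M) = x⁻¹ * t * x ∧ ψ y = 1))
    (ht : InertiaAbove ℓ (t : M ≃ₐ[ℚ] M)) (hψt : (ψ t) ^ q ≠ 1)
    (hc : c ∈ conjProducts M) (hcE : c ∈ E.fixingSubgroup)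
    (hs : (s' : M ≃ₐ[ℚ] M) = c * s * c⁻¹) (hψs : (ψ s') ^ q ≠ (ψ s) ^ q)
    (m : ℤ) (hm : ¬ (p : ℤ) ∣ m) (a b u r : (M ≃ₐ[ℚ] M) → ℂ)
    (ha : a ∈ inducedDegDiv p M) (hb : b ∈ inducedRealCM E) (hu : u ∈ inducedPrimeRam p ℓ M)
    (hr : r ∈ virtualChars (M ≃ₐ[ℚ] M)) (hrq : ∀ g, ∃ z : ℚ, r g = z) :
    (fun g => (m : ℂ) * indFun F.fixingSubgroup (extF F.fixingSubgroup (fun h => (ψ h : ℂ))) g)
      ≠ a + b + u + r := by
  have hob : Obstruction q p := by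
    rcases hq with rfl | ⟨rfl, h5, -⟩
    · exact GRPA_thm base _ hp
    · exact GRPB_thm base p hp h5
  exact field_main INER_thm CMR_thm hp hob ℓ F E hF ψ k hψ t s s' c ht hc hcE hs hq hψt hψs m hm
    a b u r ha hb hu hr hrq

end StarkSh
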